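import Pool.Agent.LibSchF.F8

open Matrix
open scoped ComplexOrder

namespace Pool.Agent.LibSchF

open Pool.Agent.LibSch Pool.Agent.LibSchTri

/-- the two columns of blocks as a sigma type -/
def f9_e (n : Type) : (Σ _ : Fin 2, n) ≃ n ⊕ n where
  toFun c := if c.1 = 0 then Sum.inl c.2 else Sum.inr c.2
  invFun := Sum.elim (fun i => ⟨0, i⟩) (fun i => ⟨1, i⟩)
  left_inv := by
    rintro ⟨k, i⟩
    fin_cases k <;> simp
  right_inv := by
    rintro (i | i) <;> simp

/-- **The case of a `2 × 2` block matrix**, `q ≥ 4`. -/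
theorem four (q : ℝ) (hq : 4 ≤ q) {n : Type} [Fintype n] [DecidableEq n]
    (A B C D : Matrix n n ℂ) (a b c d : ℝ) (ha : 0 ≤ a) (hb : 0 ≤ b) (hc : 0 ≤ c) (hd : 0 ≤ d)
    (hA : pw q A ≤ a ^ q) (hB : pw q B ≤ b ^ q) (hC : pw q C ≤ c ^ q) (hD : pw q D ≤ d ^ q) :
    pw q (fromBlocks A B C D) ≤
      pw q (Matrix.of ![![(a : ℂ), b], ![c, d]] : Matrix (Fin 2) (Fin 2) ℂ) := by
  have h := posN (N := 2) (n := fun _ => n) q hq (fun k : Fin 2 => ![A, B] k)
    (fun k : Fin 2 => ![C, D] k) ![a, b] ![c, d]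
    (fun k => by fin_cases k <;> simp [ha, hb]) (fun k => by fin_cases k <;> simp [hc, hd])
    (fun k => by fin_cases k <;> simp [hA, hB]) (fun k => by fin_cases k <;> simp [hC, hD])
  have e1 : blk (fun k : Fin 2 => ![A, B] k) (fun k : Fin 2 => ![C, D] k) =
      (fromBlocks A B C D).submatrix (Equiv.refl _) (f9_e n) := by
    ext i ⟨k, j⟩
    rcases i with i | i <;> fin_cases k <;> simp [blk, f9_e]
  rw [e1, pw_submatrix] at h
  have e2 : (Matrix.of ![![(a : ℂ), b], ![c, d]] : Matrix (Fin 2) (Fin 2) ℂ) =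
      Matrix.of fun (i : Fin 2) (k : Fin 2) =>
        ((![(![a, b] : Fin 2 → ℝ) k, (![c, d] : Fin 2 → ℝ) k] i : ℝ) : ℂ) := by
    ext i j
    fin_cases i <;> fin_cases j <;> simp
  rw [e2, pw_two q (by linarith)]
  exact h

end Pool.Agent.LibSchF
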