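import Pool.Agent.LibSchTri.Defs

open Matrix
open scoped ComplexOrder

namespace Pool.Agent.LibSchF

open Pool.Agent.LibSch Pool.Agent.LibSchTri

/-- `log det X + log det Y - log det [X, Z; Z*, Y]` -/
noncomputable def JD {m n : Type} [Fintype m] [DecidableEq m] [Fintype n] [DecidableEq n]
    (X : Matrix m m ℂ) (Y : Matrix n n ℂ) (Z : Matrix m n ℂ) : ℝ :=
  Real.log X.det.re + Real.log Y.det.re - Real.log (fromBlocks X Z Zᴴ Y).det.re

/-- `v (x + y) - log ((1 + v x)(1 + v y) - v² w²)`: the function `∑ (v e - log (1 + v e))` of the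
eigenvalues `e` of `[x, w; w, y]` -/
noncomputable def Lk (v x y w : ℝ) : ℝ :=
  v * (x + y) - Real.log ((1 + v * x) * (1 + v * y) - v ^ 2 * w ^ 2)

end Pool.Agent.LibSchF
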