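import Pool.Agent.LibSchTri.S1

open Matrix
open scoped ComplexOrder

namespace Pool.Agent.LibSchF

open Pool.Agent.LibSch Pool.Agent.LibSchTri

/-- Schur complement of a positive definite block matrix. -/
theorem f1a_schur {m n : Type} [Fintype m] [DecidableEq m] [Fintype n] [DecidableEq n]
    (A : Matrix m m ℂ) (B : Matrix m n ℂ) (D : Matrix n n ℂ) (hA : A.PosDef)
    (hM : (fromBlocks A B Bᴴ D).PosSemidef) (hdet : (fromBlocks A B Bᴴ D).det ≠ 0) :
    (D - Bᴴ * A⁻¹ * B).PosDef ∧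
      (fromBlocks A B Bᴴ D).det = A.det * (D - Bᴴ * A⁻¹ * B).det := by
  haveI : Invertible A := hA.isUnit.invertible
  have hS : (D - Bᴴ * A⁻¹ * B).PosSemidef := (PosDef.fromBlocks₁₁ B D hA).1 hM
  have hd : (fromBlocks A B Bᴴ D).det = A.det * (D - Bᴴ * A⁻¹ * B).det := by
    rw [det_fromBlocks₁₁, invOf_eq_nonsing_inv]
  refine ⟨hS.posDef_iff_det_ne_zero.2 ?_, hd⟩
  intro h0
  rw [hd, h0, mul_zero] at hdet
  exact hdet rfl

/-- **F1a** (Fischer).  `M = [A, B; Bᴴ, D]`, `det M = det A * det (D - Bᴴ A⁻¹ B)`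
(`Matrix.det_fromBlocks₁₁`), the Schur complement is positive definite and `≤ D`; `det_mono_re`
(S1). -/
theorem fischer {m n : Type} [Fintype m] [DecidableEq m] [Fintype n] [DecidableEq n]
    (M : Matrix (m ⊕ n) (m ⊕ n) ℂ) (hM : M.PosDef) :
    M.det.re ≤ M.toBlocks₁₁.det.re * M.toBlocks₂₂.det.re := by
  have hA : M.toBlocks₁₁.PosDef := hM.submatrix Sum.inl_injective
  have hC : M.toBlocks₂₁ = M.toBlocks₁₂ᴴ := by
    ext i j
    have := congrFun (congrFun hM.1 (Sum.inr i)) (Sum.inl j)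
    rw [conjTranspose_apply] at this
    rw [conjTranspose_apply]
    exact this.symm
  have hMe : M = fromBlocks M.toBlocks₁₁ M.toBlocks₁₂ M.toBlocks₁₂ᴴ M.toBlocks₂₂ := by
    rw [← hC, fromBlocks_toBlocks]
  have hM' : (fromBlocks M.toBlocks₁₁ M.toBlocks₁₂ M.toBlocks₁₂ᴴ M.toBlocks₂₂).PosDef := by
    rw [← hMe]
    exact hM
  obtain ⟨hS, hd⟩ := f1a_schur M.toBlocks₁₁ M.toBlocks₁₂ M.toBlocks₂₂ hA hM'.posSemidef
    hM'.det_pos.ne'
  have hle : (M.toBlocks₂₂ - (M.toBlocks₂₂ - M.toBlocks₁₂ᴴ * M.toBlocks₁₁⁻¹ *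
      M.toBlocks₁₂)).PosSemidef := by
    rw [sub_sub_cancel]
    exact hA.inv.posSemidef.conjTranspose_mul_mul_same _
  have h1 := det_mono_re _ _ hS hle
  have hdA := hA.det_pos
  have hdS := hS.det_pos
  have hA1 := Complex.le_def.1 hdA.le
  have hS1 := Complex.le_def.1 hdS.le
  have h2 : M.det.re = M.toBlocks₁₁.det.re *
      (M.toBlocks₂₂ - M.toBlocks₁₂ᴴ * M.toBlocks₁₁⁻¹ * M.toBlocks₁₂).det.re := by
    conv_lhs => rw [hMe, hd]
    rw [Complex.mul_re, ← hA1.2]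
    simp
  rw [h2]
  exact mul_le_mul_of_nonneg_left h1 hA1.1

end Pool.Agent.LibSchF
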