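import Pool.Agent.LibSchTri.S1

open Matrix
open scoped ComplexOrder

namespace Pool.Agent.LibSchF

open Pool.Agent.LibSch Pool.Agent.LibSchTri

/-- **F1b.** `det (1 - Δ² - K²) ≤ det (1 - Δ²) det (1 - K²)`.  Both Schur complements of the block
matrix `[1 - Δ², K; K, 1]` (`Matrix.det_fromBlocks₁₁`, `Matrix.det_fromBlocks₂₂`):
`det (1 - Δ² - K * K) = det (1 - Δ²) * det (1 - K (1 - Δ²)⁻¹ K)`, and
`K (1 - Δ²)⁻¹ K - K * K = K Δ (1 - Δ²)⁻¹ Δ K` is psd; `det_mono_re` (S1).  (`1 - K (1-Δ²)⁻¹ K` is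
positive definite because the block matrix is.) -/
theorem det_one_sub {n : Type} [Fintype n] [DecidableEq n] (Δ K : Matrix n n ℂ)
    (hΔ : Δ.IsHermitian) (hK : K.IsHermitian) (h1 : (1 - Δ * Δ).PosDef)
    (h2 : (1 - Δ * Δ - K * K).PosDef) :
    (1 - Δ * Δ - K * K).det.re ≤ (1 - Δ * Δ).det.re * (1 - K * K).det.re := by
  have hKe : Kᴴ = K := hK
  have hΔe : Δᴴ = Δ := hΔ
  haveI : Invertible (1 - Δ * Δ) := h1.isUnit.invertible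
  have hdX : (fromBlocks (1 - Δ * Δ) K Kᴴ 1).det = (1 - Δ * Δ - K * K).det := by
    rw [det_fromBlocks_one₂₂, hKe]
  have hX : (fromBlocks (1 - Δ * Δ) K Kᴴ 1).PosSemidef := by
    haveI : Invertible (1 : Matrix n n ℂ) := invertibleOne
    rw [PosDef.fromBlocks₂₂ (1 - Δ * Δ) K (PosDef.one)]
    rw [inv_one, Matrix.mul_one, hKe]
    exact h2.posSemidef
  have hdet : (fromBlocks (1 - Δ * Δ) K Kᴴ 1).det = (1 - Δ * Δ).det *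
      (1 - K * (1 - Δ * Δ)⁻¹ * K).det := by
    rw [det_fromBlocks₁₁, invOf_eq_nonsing_inv, hKe]
  have hS0 : (1 - K * (1 - Δ * Δ)⁻¹ * K).PosSemidef := by
    have := (PosDef.fromBlocks₁₁ K 1 h1).1 hX
    rw [hKe] at this
    exact this
  have hS : (1 - K * (1 - Δ * Δ)⁻¹ * K).PosDef := by
    rw [hS0.posDef_iff_det_ne_zero]
    intro h0
    rw [h0, mul_zero, hdX] at hdet
    exact h2.det_pos.ne' hdet
  have hinv1 : (1 - Δ * Δ) * (1 - Δ * Δ)⁻¹ = 1 := mul_nonsing_inv _ ((isUnit_iff_isUnit_det _).1 h1.isUnit)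
  have hinv2 : (1 - Δ * Δ)⁻¹ * (1 - Δ * Δ) = 1 := nonsing_inv_mul _ ((isUnit_iff_isUnit_det _).1 h1.isUnit)
  have hcomm : Δ * (1 - Δ * Δ)⁻¹ = (1 - Δ * Δ)⁻¹ * Δ := by
    have e : (1 - Δ * Δ) * Δ = Δ * (1 - Δ * Δ) := by noncomm_ring
    calc Δ * (1 - Δ * Δ)⁻¹ = ((1 - Δ * Δ)⁻¹ * (1 - Δ * Δ)) * Δ * (1 - Δ * Δ)⁻¹ := by
          rw [hinv2, Matrix.one_mul]
      _ = (1 - Δ * Δ)⁻¹ * ((1 - Δ * Δ) * Δ) * (1 - Δ * Δ)⁻¹ := by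
          simp only [Matrix.mul_assoc]
      _ = (1 - Δ * Δ)⁻¹ * (Δ * (1 - Δ * Δ)) * (1 - Δ * Δ)⁻¹ := by rw [e]
      _ = (1 - Δ * Δ)⁻¹ * Δ * ((1 - Δ * Δ) * (1 - Δ * Δ)⁻¹) := by
          simp only [Matrix.mul_assoc]
      _ = (1 - Δ * Δ)⁻¹ * Δ := by rw [hinv1, Matrix.mul_one]
  have hkey : (1 - Δ * Δ)⁻¹ - 1 = Δ * (1 - Δ * Δ)⁻¹ * Δ := by
    have e : (1 - Δ * Δ)⁻¹ - (1 - Δ * Δ)⁻¹ * (Δ * Δ) = 1 := by
      have e0 := hinv2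
      rw [Matrix.mul_sub, Matrix.mul_one] at e0
      exact e0
    have e3 : (1 - Δ * Δ)⁻¹ - 1 = (1 - Δ * Δ)⁻¹ * (Δ * Δ) :=
      sub_eq_of_eq_add' (sub_eq_iff_eq_add.1 e)
    rw [e3, hcomm, Matrix.mul_assoc]
  have hle : ((1 - K * K) - (1 - K * (1 - Δ * Δ)⁻¹ * K)).PosSemidef := by
    have e : (1 - K * K) - (1 - K * (1 - Δ * Δ)⁻¹ * K) = K * ((1 - Δ * Δ)⁻¹ - 1) * K := by
      noncomm_ring
    rw [e, hkey]
    have h3 := h1.inv.posSemidef.conjTranspose_mul_mul_same (Δ * K)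
    rw [conjTranspose_mul, hKe, hΔe] at h3
    have e2 : K * (Δ * (1 - Δ * Δ)⁻¹ * Δ) * K = K * Δ * (1 - Δ * Δ)⁻¹ * (Δ * K) := by
      simp only [Matrix.mul_assoc]
    rw [e2]
    exact h3
  have h4 := det_mono_re _ _ hS hle
  have hdA := Complex.le_def.1 h1.det_pos.le
  have h5 : (1 - Δ * Δ - K * K).det.re = (1 - Δ * Δ).det.re *
      (1 - K * (1 - Δ * Δ)⁻¹ * K).det.re := by
    rw [← hdX, hdet, Complex.mul_re, ← hdA.2]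
    simp
  rw [h5]
  exact mul_le_mul_of_nonneg_left h4 hdA.1

end Pool.Agent.LibSchF
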