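import Pool.Agent.LibSchF.F1a
import Pool.Agent.LibSchF.F1b

open Matrix
open scoped ComplexOrder

namespace Pool.Agent.LibSchF

open Pool.Agent.LibSch Pool.Agent.LibSchTri

theorem f2a_im {n : Type} [Fintype n] [DecidableEq n] (A : Matrix n n ℂ) (hA : A.IsHermitian) :
    A.det.im = 0 := by
  have h : star A.det = A.det := by
    have h1 := det_conjTranspose A
    rw [hA.eq] at h1
    exact h1.symm
  exact Complex.conj_eq_iff_im.1 h

theorem f2a_re_mul {n m : Type} [Fintype n] [DecidableEq n] [Fintype m] [DecidableEq m]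
    (A : Matrix n n ℂ) (B : Matrix m m ℂ) (hA : A.IsHermitian) :
    (A.det * B.det).re = A.det.re * B.det.re := by
  rw [Complex.mul_re, f2a_im A hA, zero_mul, sub_zero]

theorem f2a_J (m n : Type) [Fintype m] [DecidableEq m] [Fintype n] [DecidableEq n] :
    ∃ J : Matrix (m ⊕ n) (m ⊕ n) ℂ, Jᴴ = J ∧ J * J = 1 ∧
      ∀ (A : Matrix m m ℂ) (B : Matrix m n ℂ) (C : Matrix n m ℂ) (D : Matrix n n ℂ),
        J * fromBlocks A B C D * J = fromBlocks A (-B) (-C) D := by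
  refine ⟨fromBlocks 1 0 0 (-1), ?_, ?_, ?_⟩
  · rw [fromBlocks_conjTranspose]
    simp
  · rw [fromBlocks_multiply]
    simp
  · intro A B C D
    rw [fromBlocks_multiply, fromBlocks_multiply]
    simp

/-- **F2a** (normalised midpoint inequality).  Put `Δ = fromBlocks Δ₁ 0 0 Δ₂`,
`K = fromBlocks 0 Z Zᴴ 0`, `J = fromBlocks 1 0 0 (-1)`.  `J (1 - Δ + K) J = 1 - Δ - K`, so the left
side is `det (1 - (Δ + K)²)`, and `det (1 + K) = det (1 - K)`, so `det (1 + K) ^ 2 = det (1 - K²)`.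
`1 - (Δ + K)²` is positive definite (product of the commuting positive definite `1 + (Δ + K)` and
`1 - (Δ + K)`), its diagonal blocks are those of the block diagonal matrix `1 - Δ² - K²`: Fischer
(F1a) gives `det (1 - (Δ + K)²) ≤ det (1 - Δ² - K²)`; then F1b. -/
theorem mid_norm {m n : Type} [Fintype m] [DecidableEq m] [Fintype n] [DecidableEq n]
    (Δ₁ : Matrix m m ℂ) (Δ₂ : Matrix n n ℂ) (Z : Matrix m n ℂ)
    (hp : (fromBlocks (1 + Δ₁) Z Zᴴ (1 + Δ₂)).PosDef)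
    (hm : (fromBlocks (1 - Δ₁) Z Zᴴ (1 - Δ₂)).PosDef) :
    (fromBlocks (1 + Δ₁) Z Zᴴ (1 + Δ₂)).det.re * (fromBlocks (1 - Δ₁) Z Zᴴ (1 - Δ₂)).det.re ≤
      (fromBlocks 1 Z Zᴴ 1).det.re ^ 2 *
        (((1 + Δ₁).det.re * (1 - Δ₁).det.re) * ((1 + Δ₂).det.re * (1 - Δ₂).det.re)) := by
  obtain ⟨J, hJs, hJJ, hJ⟩ := f2a_J m n
  have hJdet : J.det * J.det = 1 := by rw [← det_mul, hJJ, det_one]
  have hJu : IsUnit J := IsUnit.of_mul_eq_one J hJJ
  have hconjdet : ∀ A : Matrix (m ⊕ n) (m ⊕ n) ℂ, (J * A * J).det = A.det := by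
    intro A
    rw [det_mul, det_mul]
    linear_combination A.det * hJdet
  have hconjpos : ∀ A : Matrix (m ⊕ n) (m ⊕ n) ℂ, A.PosDef → (J * A * J).PosDef := by
    intro A hA
    have h1 := (Matrix.IsUnit.posDef_star_left_conjugate_iff (x := A) hJu).2 hA
    rw [star_eq_conjTranspose, hJs] at h1
    exact h1
  -- the matrices
  obtain ⟨H, hH⟩ : ∃ H : Matrix (m ⊕ n) (m ⊕ n) ℂ, H = fromBlocks Δ₁ Z Zᴴ Δ₂ := ⟨_, rfl⟩
  obtain ⟨D, hD⟩ : ∃ D : Matrix (m ⊕ n) (m ⊕ n) ℂ, D = fromBlocks Δ₁ 0 0 Δ₂ := ⟨_, rfl⟩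
  obtain ⟨K, hK⟩ : ∃ K : Matrix (m ⊕ n) (m ⊕ n) ℂ, K = fromBlocks 0 Z Zᴴ 0 := ⟨_, rfl⟩
  have hHDK : H = D + K := by
    rw [hH, hD, hK, fromBlocks_add]; simp
  have hP : fromBlocks (1 + Δ₁) Z Zᴴ (1 + Δ₂) = 1 + H := by
    rw [hH, ← fromBlocks_one, fromBlocks_add]; simp
  have hM : J * fromBlocks (1 - Δ₁) Z Zᴴ (1 - Δ₂) * J = 1 - H := by
    rw [hJ, hH, ← fromBlocks_one, sub_eq_add_neg (fromBlocks 1 0 0 1), fromBlocks_neg,
      fromBlocks_add]
    simp [sub_eq_add_neg]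
  have hJD : J * D * J = D := by rw [hD, hJ]; simp
  have hJK : J * K * J = -K := by
    rw [hK, hJ, fromBlocks_neg]; simp
  have hPpos : (1 + H).PosDef := by rw [← hP]; exact hp
  have hQpos : (1 - H).PosDef := by rw [← hM]; exact hconjpos _ hm
  -- hermitian
  have hblk := isHermitian_fromBlocks_iff.1 hp.isHermitian
  have hΔ1 : Δ₁.IsHermitian := by
    have h1 : Δ₁ = (1 + Δ₁) - 1 := by abel
    rw [h1]; exact hblk.1.sub isHermitian_one
  have hΔ2 : Δ₂.IsHermitian := by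
    have h1 : Δ₂ = (1 + Δ₂) - 1 := by abel
    rw [h1]; exact hblk.2.2.2.sub isHermitian_one
  have hDh : D.IsHermitian := by
    rw [hD]
    exact isHermitian_fromBlocks_iff.2 ⟨hΔ1, by simp, by simp, hΔ2⟩
  have hKh : K.IsHermitian := by
    rw [hK]
    exact isHermitian_fromBlocks_iff.2 ⟨isHermitian_zero, by simp, by simp, isHermitian_zero⟩
  -- `W = 1 - H * H`
  have hWfac : (1 + H) * (1 - H) = 1 - H * H := by noncomm_ring
  have hWpos : (1 - H * H).PosDef := by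
    have hPu : IsUnit (1 + H) := hPpos.isUnit
    have hQu : IsUnit (1 - H) := hQpos.isUnit
    have h1 := (Matrix.IsUnit.posDef_star_left_conjugate_iff (x := 1 - H) hPu).2 hQpos
    have h2 := (Matrix.IsUnit.posDef_star_left_conjugate_iff (x := 1 + H) hQu).2 hPpos
    rw [star_eq_conjTranspose, hPpos.isHermitian.eq] at h1
    rw [star_eq_conjTranspose, hQpos.isHermitian.eq] at h2
    have h3 := (h1.add h2).smul (show (0 : ℂ) < 1 / 2 by
      rw [Complex.lt_def]; norm_num)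
    have h4 : (1 / 2 : ℂ) • ((1 + H) * (1 - H) * (1 + H) + (1 - H) * (1 + H) * (1 - H)) =
        1 - H * H := by
      have h5 : (1 + H) * (1 - H) * (1 + H) + (1 - H) * (1 + H) * (1 - H) =
          (2 : ℂ) • (1 - H * H) := by
        rw [two_smul]; noncomm_ring
      rw [h5, smul_smul]; norm_num
    rw [h4] at h3
    exact h3
  -- `E = 1 - D * D - K * K`
  have hEpos : (1 - D * D - K * K).PosDef := by
    have h3 := (hWpos.add (hconjpos _ hWpos)).smul (show (0 : ℂ) < 1 / 2 by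
      rw [Complex.lt_def]; norm_num)
    have h4 : J * (1 - H * H) * J = 1 - (D - K) * (D - K) := by
      have h5 : J * (1 - H * H) * J = J * J - (J * H * J) * (J * H * J) := by
        have h6 : (J * H * J) * (J * H * J) = J * H * (J * J) * H * J := by noncomm_ring
        have h6b : J * H * (J * J) * H * J = J * (H * H) * J := by rw [hJJ]; noncomm_ring
        rw [h6, h6b]; noncomm_ring
      have h7 : J * H * J = D - K := by
        rw [hHDK]
        have : J * (D + K) * J = J * D * J + J * K * J := by noncomm_ring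
        rw [this, hJD, hJK]; abel
      rw [h5, h7, hJJ]
    rw [h4, hHDK] at h3
    have h8 : (1 / 2 : ℂ) • (1 - (D + K) * (D + K) + (1 - (D - K) * (D - K))) =
        1 - D * D - K * K := by
      have h5 : (1 - (D + K) * (D + K) + (1 - (D - K) * (D - K))) =
          (2 : ℂ) • (1 - D * D - K * K) := by
        rw [two_smul]; noncomm_ring
      rw [h5, smul_smul]; norm_num
    rw [h8] at h3
    exact h3
  have hWblk : 1 - H * H = fromBlocks (1 - (Δ₁ * Δ₁ + Z * Zᴴ)) (-(Δ₁ * Z + Z * Δ₂))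
      (-(Zᴴ * Δ₁ + Δ₂ * Zᴴ)) (1 - (Zᴴ * Z + Δ₂ * Δ₂)) := by
    rw [hH, fromBlocks_multiply, ← fromBlocks_one, sub_eq_add_neg (fromBlocks 1 0 0 1),
      fromBlocks_neg, fromBlocks_add]
    simp [sub_eq_add_neg]
  have hEblk : 1 - D * D - K * K = fromBlocks (1 - (Δ₁ * Δ₁ + Z * Zᴴ)) 0 0
      (1 - (Zᴴ * Z + Δ₂ * Δ₂)) := by
    have h1 : D * D + K * K = fromBlocks (Δ₁ * Δ₁ + Z * Zᴴ) 0 0 (Zᴴ * Z + Δ₂ * Δ₂) := by
      rw [hD, hK, fromBlocks_multiply, fromBlocks_multiply, fromBlocks_add]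
      simp [add_comm]
    rw [sub_sub, h1, ← fromBlocks_one, sub_eq_add_neg (fromBlocks 1 0 0 1), fromBlocks_neg,
      fromBlocks_add]
    simp [sub_eq_add_neg]
  -- Fischer
  have hF := fischer (1 - H * H) hWpos
  have hW11 : (1 - H * H).toBlocks₁₁ = 1 - (Δ₁ * Δ₁ + Z * Zᴴ) := by
    rw [hWblk, toBlocks_fromBlocks₁₁]
  have hW22 : (1 - H * H).toBlocks₂₂ = 1 - (Zᴴ * Z + Δ₂ * Δ₂) := by
    rw [hWblk, toBlocks_fromBlocks₂₂]
  rw [hW11, hW22] at hF
  have hW11h : (1 - (Δ₁ * Δ₁ + Z * Zᴴ)).IsHermitian := by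
    have h1 := isHermitian_fromBlocks_iff.1 (hEblk ▸ hEpos.isHermitian)
    exact h1.1
  have hEdet : (1 - D * D - K * K).det.re =
      (1 - (Δ₁ * Δ₁ + Z * Zᴴ)).det.re * (1 - (Zᴴ * Z + Δ₂ * Δ₂)).det.re := by
    rw [hEblk, det_fromBlocks_zero₂₁, f2a_re_mul _ _ hW11h]
  have h1pos : (1 - D * D).PosDef := by
    have h1 : (K * K).PosSemidef := by
      have h2 := posSemidef_self_mul_conjTranspose K
      rw [hKh.eq] at h2
      exact h2
    have h2 : 1 - D * D = (1 - D * D - K * K) + K * K := by abel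
    rw [h2]
    exact hEpos.add_posSemidef h1
  have hB := det_one_sub D K hDh hKh h1pos hEpos
  -- the left side
  have hL : (fromBlocks (1 + Δ₁) Z Zᴴ (1 + Δ₂)).det.re *
      (fromBlocks (1 - Δ₁) Z Zᴴ (1 - Δ₂)).det.re = (1 - H * H).det.re := by
    rw [← hconjdet (fromBlocks (1 - Δ₁) Z Zᴴ (1 - Δ₂)), hM, hP,
      ← f2a_re_mul _ _ hPpos.isHermitian, ← det_mul, hWfac]
  -- the right side
  have hR1 : (1 - D * D).det.re =
      ((1 + Δ₁).det.re * (1 - Δ₁).det.re) * ((1 + Δ₂).det.re * (1 - Δ₂).det.re) := by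
    have h1 : 1 - D * D = fromBlocks ((1 + Δ₁) * (1 - Δ₁)) 0 0 ((1 + Δ₂) * (1 - Δ₂)) := by
      have e1 : (1 + Δ₁) * (1 - Δ₁) = 1 - Δ₁ * Δ₁ := by noncomm_ring
      have e2 : (1 + Δ₂) * (1 - Δ₂) = 1 - Δ₂ * Δ₂ := by noncomm_ring
      rw [e1, e2, hD, fromBlocks_multiply, ← fromBlocks_one, sub_eq_add_neg (fromBlocks 1 0 0 1),
        fromBlocks_neg, fromBlocks_add]
      simp [sub_eq_add_neg]
    have ha : (1 + Δ₁).IsHermitian := hblk.1
    have hb : (1 + Δ₂).IsHermitian := hblk.2.2.2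
    have hc : ((1 + Δ₁) * (1 - Δ₁)).IsHermitian := by
      have e1 : (1 + Δ₁) * (1 - Δ₁) = 1 - Δ₁ * Δ₁ := by noncomm_ring
      rw [e1]
      refine isHermitian_one.sub ?_
      have h2 : (Δ₁ * Δ₁).IsHermitian := by
        have h3 : (Δ₁ * Δ₁)ᴴ = Δ₁ * Δ₁ := by rw [conjTranspose_mul, hΔ1.eq]
        exact h3
      exact h2
    rw [h1, det_fromBlocks_zero₂₁, f2a_re_mul _ _ hc, det_mul, det_mul, f2a_re_mul _ _ ha,
      f2a_re_mul _ _ hb]
  have hR2 : (1 - K * K).det.re = (fromBlocks 1 Z Zᴴ 1).det.re ^ 2 := by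
    have e1 : 1 - K * K = (1 + K) * (1 - K) := by noncomm_ring
    have e2 : 1 - K = J * (1 + K) * J := by
      have h3 : J * (1 + K) * J = J * J + J * K * J := by noncomm_ring
      rw [h3, hJJ, hJK]; abel
    have e3 : 1 + K = fromBlocks 1 Z Zᴴ 1 := by
      rw [hK, ← fromBlocks_one, fromBlocks_add]; simp
    have hKK : (1 + K).IsHermitian := isHermitian_one.add hKh
    rw [e1, det_mul, e2, hconjdet, f2a_re_mul _ _ hKK, e3, sq]
  rw [hL]
  calc (1 - H * H).det.re ≤ (1 - D * D - K * K).det.re := by rw [hEdet]; exact hF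
    _ ≤ (1 - D * D).det.re * (1 - K * K).det.re := hB
    _ = _ := by rw [hR1, hR2]; ring

end Pool.Agent.LibSchF
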