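import Pool.Agent.LibSchF.Defs
import Pool.Agent.LibSchF.F2a
import Pool.Agent.LibSchTri.S1

open Matrix
open scoped ComplexOrder

namespace Pool.Agent.LibSchF

open Pool.Agent.LibSch Pool.Agent.LibSchTri

theorem f2b_det {n : Type} [Fintype n] [DecidableEq n] (M W : Matrix n n ℂ) :
    (Wᴴ * M * W).det.re = Complex.normSq W.det * M.det.re := by
  rw [det_mul, det_mul, det_conjTranspose]
  have e : star W.det * M.det * W.det = (Complex.normSq W.det : ℂ) * M.det := by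
    rw [Complex.normSq_eq_conj_mul_self]
    show star W.det * M.det * W.det = star W.det * W.det * M.det
    ring
  rw [e, Complex.re_ofReal_mul]

theorem f2b_pos {n : Type} [Fintype n] [DecidableEq n] {M : Matrix n n ℂ} (hM : M.PosDef) :
    0 < M.det.re := (Complex.pos_iff.1 hM.det_pos).1

/-- inverse of a factor of a positive definite matrix -/
theorem f2b_inv {n : Type} [Fintype n] [DecidableEq n] {X : Matrix n n ℂ} (hX : X.PosDef) :
    ∃ P : Matrix n n ℂ, IsUnit P ∧ Pᴴ * X * P = 1 := by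
  obtain ⟨A, hA⟩ := s1_factor X hX.posSemidef
  have hd : IsUnit A.det := by
    rw [isUnit_iff_ne_zero]
    intro h0
    have h1 := f2b_pos hX
    rw [hA, det_mul, h0, mul_zero] at h1
    exact lt_irrefl _ h1
  refine ⟨A⁻¹, (isUnit_iff_isUnit_det _).2 ((isUnit_nonsing_inv_det_iff).2 hd), ?_⟩
  have h2 : A * A⁻¹ = 1 := mul_nonsing_inv A hd
  have h3 : (A⁻¹)ᴴ * Aᴴ = 1 := by rw [← conjTranspose_mul, h2, conjTranspose_one]
  rw [hA, ← Matrix.mul_assoc, h3, Matrix.one_mul, h2]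

theorem f2b_congr {m n : Type} [Fintype m] [DecidableEq m] [Fintype n] [DecidableEq n]
    (X : Matrix m m ℂ) (Y : Matrix n n ℂ) (Z : Matrix m n ℂ) (P : Matrix m m ℂ)
    (Q : Matrix n n ℂ) :
    fromBlocks (Pᴴ * X * P) (Pᴴ * Z * Q) (Pᴴ * Z * Q)ᴴ (Qᴴ * Y * Q) =
      (fromBlocks P 0 0 Q)ᴴ * fromBlocks X Z Zᴴ Y * fromBlocks P 0 0 Q := by
  rw [fromBlocks_conjTranspose, fromBlocks_multiply, fromBlocks_multiply]
  simp only [conjTranspose_zero, Matrix.zero_mul, Matrix.mul_zero, add_zero, zero_add,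
    conjTranspose_mul, conjTranspose_conjTranspose, Matrix.mul_assoc]

theorem f2b_detW {m n : Type} [Fintype m] [DecidableEq m] [Fintype n] [DecidableEq n]
    (P : Matrix m m ℂ) (Q : Matrix n n ℂ) :
    Complex.normSq (fromBlocks P 0 0 Q).det = Complex.normSq P.det * Complex.normSq Q.det := by
  rw [det_fromBlocks_zero₂₁, Complex.normSq_mul]

/-- the real inequality -/
theorem f2b_real {x0 y0 f0 x1 x2 y1 y2 f1 f2 c d : ℝ} (hx0 : 0 < x0) (hy0 : 0 < y0)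
    (hf0 : 0 < f0) (hx1 : 0 < x1) (hx2 : 0 < x2) (hy1 : 0 < y1) (hy2 : 0 < y2) (hf1 : 0 < f1)
    (hf2 : 0 < f2) (hc : c * x0 = 1) (hd : d * y0 = 1)
    (h : (c * d * f1) * (c * d * f2) ≤ (c * d * f0) ^ 2 *
      ((c * x1) * (c * x2) * ((d * y1) * (d * y2)))) :
    2 * (Real.log x0 + Real.log y0 - Real.log f0) ≤
      (Real.log x1 + Real.log y1 - Real.log f1) + (Real.log x2 + Real.log y2 - Real.log f2) := by
  have hc0 : 0 < c := by
    rcases lt_or_ge 0 c with h' | h'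
    · exact h'
    · nlinarith
  have hd0 : 0 < d := by
    rcases lt_or_ge 0 d with h' | h'
    · exact h'
    · nlinarith
  have hlc : Real.log c = -Real.log x0 := by
    have := Real.log_mul hc0.ne' hx0.ne'
    rw [hc, Real.log_one] at this
    linarith
  have hld : Real.log d = -Real.log y0 := by
    have := Real.log_mul hd0.ne' hy0.ne'
    rw [hd, Real.log_one] at this
    linarith
  have hl := Real.log_le_log (by positivity) h
  rw [Real.log_mul (by positivity) (by positivity), Real.log_mul (by positivity) (by positivity),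
    Real.log_mul (by positivity) (by positivity), Real.log_mul (by positivity) (by positivity),
    Real.log_mul (by positivity) (by positivity), Real.log_mul (by positivity) (by positivity),
    Real.log_pow, Real.log_mul (by positivity) (by positivity),
    Real.log_mul (by positivity) (by positivity), Real.log_mul (by positivity) (by positivity),
    Real.log_mul (by positivity) (by positivity), Real.log_mul (by positivity) (by positivity),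
    Real.log_mul (by positivity) (by positivity), Real.log_mul (by positivity) (by positivity),
    Real.log_mul (by positivity) (by positivity), Real.log_mul (by positivity) (by positivity),
    hlc, hld] at hl
  push_cast at hl
  linarith

/-- **F2b.**  `JD` is midpoint convex in `(X, Y)`.  `X₀ = (X₁ + X₂)/2`, `Y₀ = (Y₁ + Y₂)/2` are
positive definite; write `X₀ = Aᴴ A`, `Y₀ = Bᴴ B` (`s1_factor`, `A`, `B` invertible), then
`X₁ = Aᴴ (1 + Δ₁) A`, `X₂ = Aᴴ (1 - Δ₁) A`, `Y₁ = Bᴴ (1 + Δ₂) B`, `Y₂ = Bᴴ (1 - Δ₂) B`,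
`Z = Aᴴ Z' B`; `JD` is invariant under this congruence; take logarithms in F2a (all determinants
are positive reals). -/
theorem JD_mid {m n : Type} [Fintype m] [DecidableEq m] [Fintype n] [DecidableEq n]
    (X₁ X₂ : Matrix m m ℂ) (Y₁ Y₂ : Matrix n n ℂ) (Z : Matrix m n ℂ)
    (h1 : (fromBlocks X₁ Z Zᴴ Y₁).PosDef) (h2 : (fromBlocks X₂ Z Zᴴ Y₂).PosDef) :
    2 * JD ((1 / 2 : ℂ) • (X₁ + X₂)) ((1 / 2 : ℂ) • (Y₁ + Y₂)) Z ≤ JD X₁ Y₁ Z + JD X₂ Y₂ Z := by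
  obtain ⟨X₀, hX0⟩ : ∃ X₀, X₀ = (1 / 2 : ℂ) • (X₁ + X₂) := ⟨_, rfl⟩
  obtain ⟨Y₀, hY0⟩ : ∃ Y₀, Y₀ = (1 / 2 : ℂ) • (Y₁ + Y₂) := ⟨_, rfl⟩
  rw [← hX0, ← hY0]
  have hhalf : (0 : ℂ) < 1 / 2 := by
    rw [Complex.pos_iff]
    norm_num
  have h0 : (fromBlocks X₀ Z Zᴴ Y₀).PosDef := by
    have h3 := (h1.add h2).smul hhalf
    have e : (1 / 2 : ℂ) • (fromBlocks X₁ Z Zᴴ Y₁ + fromBlocks X₂ Z Zᴴ Y₂) =
        fromBlocks X₀ Z Zᴴ Y₀ := by
      rw [fromBlocks_add, fromBlocks_smul, hX0, hY0]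
      congr 1
      · rw [← two_smul ℂ Z, smul_smul]
        norm_num
      · rw [← two_smul ℂ Zᴴ, smul_smul]
        norm_num
    rw [e] at h3
    exact h3
  have hx : ∀ {X : Matrix m m ℂ} {Y : Matrix n n ℂ}, (fromBlocks X Z Zᴴ Y).PosDef →
      X.PosDef := fun h => h.submatrix (e := Sum.inl) Sum.inl_injective
  have hy : ∀ {X : Matrix m m ℂ} {Y : Matrix n n ℂ}, (fromBlocks X Z Zᴴ Y).PosDef →
      Y.PosDef := fun h => h.submatrix (e := Sum.inr) Sum.inr_injective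
  obtain ⟨P, hPu, hP⟩ := f2b_inv (hx h0)
  obtain ⟨Q, hQu, hQ⟩ := f2b_inv (hy h0)
  have hWu : IsUnit (fromBlocks P 0 0 Q : Matrix (m ⊕ n) (m ⊕ n) ℂ) := by
    rw [isUnit_iff_isUnit_det, det_fromBlocks_zero₂₁]
    exact ((isUnit_iff_isUnit_det _).1 hPu).mul ((isUnit_iff_isUnit_det _).1 hQu)
  obtain ⟨D₁, hD1⟩ : ∃ D₁, D₁ = (1 / 2 : ℂ) • (Pᴴ * (X₁ - X₂) * P) := ⟨_, rfl⟩
  obtain ⟨D₂, hD2⟩ : ∃ D₂, D₂ = (1 / 2 : ℂ) • (Qᴴ * (Y₁ - Y₂) * Q) := ⟨_, rfl⟩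
  have key : ∀ {k : Type} [Fintype k] [DecidableEq k] (R T₀ T₁ T₂ : Matrix k k ℂ),
      T₀ = (1 / 2 : ℂ) • (T₁ + T₂) → Rᴴ * T₀ * R = 1 →
      1 + (1 / 2 : ℂ) • (Rᴴ * (T₁ - T₂) * R) = Rᴴ * T₁ * R ∧
      1 - (1 / 2 : ℂ) • (Rᴴ * (T₁ - T₂) * R) = Rᴴ * T₂ * R := by
    intro k _ _ R T₀ T₁ T₂ hT hR
    rw [← hR, hT]
    simp only [Matrix.mul_add, Matrix.add_mul, Matrix.mul_sub, Matrix.sub_mul, Matrix.mul_smul,
      Matrix.smul_mul, smul_add, smul_sub]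
    obtain ⟨E, hE⟩ : ∃ E, E = Rᴴ * T₁ * R := ⟨_, rfl⟩
    obtain ⟨F, hF⟩ : ∃ F, F = Rᴴ * T₂ * R := ⟨_, rfl⟩
    rw [← hE, ← hF]
    constructor
    · have e : (1 / 2 : ℂ) • E + (1 / 2 : ℂ) • F + ((1 / 2 : ℂ) • E - (1 / 2 : ℂ) • F) =
          ((1 / 2 : ℂ) + 1 / 2) • E := by
        rw [add_smul]; abel
      rw [e]
      norm_num
    · have e : (1 / 2 : ℂ) • E + (1 / 2 : ℂ) • F - ((1 / 2 : ℂ) • E - (1 / 2 : ℂ) • F) =
          ((1 / 2 : ℂ) + 1 / 2) • F := by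
        rw [add_smul]; abel
      rw [e]
      norm_num
  obtain ⟨a1, a2⟩ := key P X₀ X₁ X₂ hX0 hP
  obtain ⟨b1, b2⟩ := key Q Y₀ Y₁ Y₂ hY0 hQ
  rw [← hD1] at a1 a2
  rw [← hD2] at b1 b2
  have c1 : fromBlocks (1 + D₁) (Pᴴ * Z * Q) (Pᴴ * Z * Q)ᴴ (1 + D₂) =
      (fromBlocks P 0 0 Q)ᴴ * fromBlocks X₁ Z Zᴴ Y₁ * fromBlocks P 0 0 Q := by
    rw [a1, b1]; exact f2b_congr X₁ Y₁ Z P Q
  have c2 : fromBlocks (1 - D₁) (Pᴴ * Z * Q) (Pᴴ * Z * Q)ᴴ (1 - D₂) =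
      (fromBlocks P 0 0 Q)ᴴ * fromBlocks X₂ Z Zᴴ Y₂ * fromBlocks P 0 0 Q := by
    rw [a2, b2]; exact f2b_congr X₂ Y₂ Z P Q
  have c0 : fromBlocks 1 (Pᴴ * Z * Q) (Pᴴ * Z * Q)ᴴ 1 =
      (fromBlocks P 0 0 Q)ᴴ * fromBlocks X₀ Z Zᴴ Y₀ * fromBlocks P 0 0 Q := by
    have := f2b_congr X₀ Y₀ Z P Q
    rw [hP, hQ] at this
    exact this
  have h3 := mid_norm D₁ D₂ (Pᴴ * Z * Q)
    (by rw [c1]; exact h1.conjTranspose_mul_mul_same (mulVec_injective_of_isUnit hWu))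
    (by rw [c2]; exact h2.conjTranspose_mul_mul_same (mulVec_injective_of_isUnit hWu))
  rw [c1, c2, c0, a1, a2, b1, b2, f2b_det, f2b_det, f2b_det, f2b_det, f2b_det, f2b_det, f2b_det,
    f2b_detW] at h3
  have hc : Complex.normSq P.det * X₀.det.re = 1 := by
    rw [← f2b_det, hP, det_one, Complex.one_re]
  have hd : Complex.normSq Q.det * Y₀.det.re = 1 := by
    rw [← f2b_det, hQ, det_one, Complex.one_re]
  unfold JD
  exact f2b_real (f2b_pos (hx h0)) (f2b_pos (hy h0)) (f2b_pos h0) (f2b_pos (hx h1))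
    (f2b_pos (hx h2)) (f2b_pos (hy h1)) (f2b_pos (hy h2)) (f2b_pos h1) (f2b_pos h2) hc hd h3

end Pool.Agent.LibSchF
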