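import Pool.Agent.LibSchF.F2b
import Pool.Agent.LibSchTri.S5

open Matrix
open scoped ComplexOrder

namespace Pool.Agent.LibSchF

open Pool.Agent.LibSch Pool.Agent.LibSchTri

/-- the doubled sign matrix -/
theorem f3a_EE {d : Type} [Fintype d] [DecidableEq d] (k : d) :
    fromBlocks (s5_D (id : d → d) k) 0 0 (s5_D (id : d → d) k) *
      fromBlocks (s5_D (id : d → d) k) 0 0 (s5_D (id : d → d) k) = 1 := by
  rw [fromBlocks_multiply, s5_DD]
  simp [fromBlocks_one]

theorem f3a_Eh {d : Type} [Fintype d] [DecidableEq d] (k : d) :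
    (fromBlocks (s5_D (id : d → d) k) 0 0 (s5_D (id : d → d) k))ᴴ =
      fromBlocks (s5_D (id : d → d) k) 0 0 (s5_D (id : d → d) k) := by
  rw [fromBlocks_conjTranspose, s5_Dh]
  simp

/-- the sign matrix commutes with diagonal matrices -/
theorem f3a_Dz {d : Type} [Fintype d] [DecidableEq d] (k : d) (z : d → ℂ) :
    s5_D (id : d → d) k * diagonal z * s5_D (id : d → d) k = diagonal z := by
  ext i j
  rw [s5_entry]
  by_cases hij : i = j
  · subst hij
    simp only [id_eq, diagonal_apply_eq]
    split_ifs <;> ring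
  · rw [diagonal_apply_ne _ hij]
    ring

theorem f3a_conj {d : Type} [Fintype d] [DecidableEq d] (k : d) (X Y : Matrix d d ℂ)
    (z : d → ℂ) :
    fromBlocks (s5_D (id : d → d) k) 0 0 (s5_D (id : d → d) k) *
      fromBlocks X (diagonal z) (diagonal z)ᴴ Y *
      fromBlocks (s5_D (id : d → d) k) 0 0 (s5_D (id : d → d) k) =
    fromBlocks (s5_D (id : d → d) k * X * s5_D (id : d → d) k) (diagonal z) (diagonal z)ᴴ
      (s5_D (id : d → d) k * Y * s5_D (id : d → d) k) := by
  rw [fromBlocks_multiply, fromBlocks_multiply]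
  have h1 := f3a_Dz k z
  have h2 : s5_D (id : d → d) k * (diagonal z)ᴴ * s5_D (id : d → d) k = (diagonal z)ᴴ := by
    rw [diagonal_conjTranspose]
    exact f3a_Dz k _
  simp only [Matrix.zero_mul, Matrix.mul_zero, add_zero, zero_add]
  rw [h1, h2]

theorem f3a_mid {d : Type} (X Y X' Y' Z : Matrix d d ℂ) (W : Matrix d d ℂ) :
    fromBlocks ((1 / 2 : ℂ) • (X + X')) Z W ((1 / 2 : ℂ) • (Y + Y')) =
      (1 / 2 : ℂ) • (fromBlocks X Z W Y + fromBlocks X' Z W Y') := by
  rw [fromBlocks_add, fromBlocks_smul]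
  congr 1
  · rw [← two_smul ℂ Z, smul_smul]
    norm_num
  · rw [← two_smul ℂ W, smul_smul]
    norm_num

theorem f3a_det {d : Type} [Fintype d] [DecidableEq d] (D A : Matrix d d ℂ) (h : D * D = 1) :
    (D * A * D).det = A.det := by
  have hdet : D.det * D.det = 1 := by
    rw [← det_mul, h, det_one]
  rw [det_mul, det_mul]
  calc D.det * A.det * D.det = (D.det * D.det) * A.det := by ring
    _ = A.det := by rw [hdet, one_mul]

theorem f3a_induct {d : Type} [Fintype d] [DecidableEq d] (S : Finset d) (X Y : Matrix d d ℂ)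
    (z : d → ℂ) (h : (fromBlocks X (diagonal z) (diagonal z)ᴴ Y).PosDef) :
    (fromBlocks (pinchS id S X) (diagonal z) (diagonal z)ᴴ (pinchS id S Y)).PosDef ∧
      JD (pinchS id S X) (pinchS id S Y) (diagonal z) ≤ JD X Y (diagonal z) := by
  induction S using Finset.induction_on with
  | empty =>
    have hX : ∀ A : Matrix d d ℂ, pinchS id ∅ A = A := by
      intro A
      ext i j
      simp [pinchS]
    rw [hX, hX]
    exact ⟨h, le_rfl⟩
  | insert k S _ ih =>
    obtain ⟨h1, h2⟩ := ih
    have hEE := f3a_EE k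
    have hinj : Function.Injective
        (fromBlocks (s5_D (id : d → d) k) 0 0 (s5_D (id : d → d) k)).mulVec := by
      intro v w hvw
      have h3 : fromBlocks (s5_D (id : d → d) k) 0 0 (s5_D (id : d → d) k) *ᵥ
          (fromBlocks (s5_D (id : d → d) k) 0 0 (s5_D (id : d → d) k) *ᵥ v) =
          fromBlocks (s5_D (id : d → d) k) 0 0 (s5_D (id : d → d) k) *ᵥ
          (fromBlocks (s5_D (id : d → d) k) 0 0 (s5_D (id : d → d) k) *ᵥ w) := by
        rw [hvw]
      rwa [mulVec_mulVec, mulVec_mulVec, hEE, one_mulVec, one_mulVec] at h3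
    have h4 := h1.conjTranspose_mul_mul_same hinj
    rw [f3a_Eh, f3a_conj] at h4
    rw [s5_step, s5_step]
    refine ⟨?_, ?_⟩
    · rw [f3a_mid]
      exact (h1.add h4).smul (by norm_num)
    · have h9 := JD_mid _ _ _ _ _ h1 h4
      have h6 : JD (s5_D (id : d → d) k * pinchS id S X * s5_D (id : d → d) k)
          (s5_D (id : d → d) k * pinchS id S Y * s5_D (id : d → d) k) (diagonal z) =
          JD (pinchS id S X) (pinchS id S Y) (diagonal z) := by
        unfold JD
        rw [f3a_det _ _ (s5_DD id k), f3a_det _ _ (s5_DD id k), ← f3a_conj]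
        have h7 : (fromBlocks (s5_D (id : d → d) k) 0 0 (s5_D (id : d → d) k) *
            fromBlocks (pinchS id S X) (diagonal z) (diagonal z)ᴴ (pinchS id S Y) *
            fromBlocks (s5_D (id : d → d) k) 0 0 (s5_D (id : d → d) k)).det =
            (fromBlocks (pinchS id S X) (diagonal z) (diagonal z)ᴴ (pinchS id S Y)).det := by
          have hdet : (fromBlocks (s5_D (id : d → d) k) 0 0 (s5_D (id : d → d) k)).det *
              (fromBlocks (s5_D (id : d → d) k) 0 0 (s5_D (id : d → d) k)).det = 1 := by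
            rw [← det_mul, hEE, det_one]
          rw [det_mul, det_mul, mul_comm, ← mul_assoc, hdet, one_mul]
        rw [h7]
      linarith

/-- **F3a.**  pinching: flip the signs of the basis vectors one after the other.
Induction on the finset `S` for `pinchS id S X`, `pinchS id S Y` (`s5_step`, `s5_D`, `s5_DD`,
`s5_Dh` of S5; the sign matrix `D = s5_D id k` commutes with `diagonal ζ`), `JD_mid` and
`JD (D X D) (D Y D) ζ = JD X Y ζ`; at the end `pinchS id univ X = diagonal fun k => X k k`. -/
theorem JD_pinch {d : Type} [Fintype d] [DecidableEq d] (X Y : Matrix d d ℂ) (ζ : d → ℝ)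
    (h : (fromBlocks X (diagonal fun k => (ζ k : ℂ)) (diagonal fun k => (ζ k : ℂ))ᴴ Y).PosDef) :
    (fromBlocks (diagonal fun k => X k k) (diagonal fun k => (ζ k : ℂ))
        (diagonal fun k => (ζ k : ℂ))ᴴ (diagonal fun k => Y k k)).PosDef ∧
      JD (diagonal fun k => X k k) (diagonal fun k => Y k k) (diagonal fun k => (ζ k : ℂ)) ≤
        JD X Y (diagonal fun k => (ζ k : ℂ)) := by
  have hU : ∀ A : Matrix d d ℂ, pinchS id Finset.univ A = diagonal fun k => A k k := by
    intro A
    ext i j
    by_cases hij : i = j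
    · subst hij
      simp [pinchS]
    · rw [diagonal_apply_ne _ hij]
      simp [pinchS, hij]
  have h1 := f3a_induct Finset.univ X Y (fun k => (ζ k : ℂ)) h
  rw [hU, hU] at h1
  exact h1

end Pool.Agent.LibSchF
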