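import Pool.Agent.LibSchF.Defs

open Matrix
open scoped ComplexOrder

namespace Pool.Agent.LibSchF

open Pool.Agent.LibSch Pool.Agent.LibSchTri

theorem f3b_det_real {d : Type} [Fintype d] [DecidableEq d] (h : d → ℝ) :
    (diagonal fun k => (h k : ℂ)).det = ((∏ k, h k : ℝ) : ℂ) := by
  rw [det_diagonal, Complex.ofReal_prod]

/-- **F3b.**  diagonal data (`Matrix.det_fromBlocks₂₂` or `det_fromBlocks_of_commute`-type lemma,
`Real.log_prod`). -/
theorem JD_diag {d : Type} [Fintype d] [DecidableEq d] (x y ζ : d → ℝ) (hx : ∀ k, 0 < x k)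
    (hy : ∀ k, 0 < y k) (h : ∀ k, ζ k ^ 2 < x k * y k) :
    JD (diagonal fun k => (x k : ℂ)) (diagonal fun k => (y k : ℂ)) (diagonal fun k => (ζ k : ℂ)) =
      ∑ k, (Real.log (x k) + Real.log (y k) - Real.log (x k * y k - ζ k ^ 2)) := by
  have hpos : ∀ k, 0 < x k * y k - ζ k ^ 2 := fun k => sub_pos.mpr (h k)
  have h2 : (fromBlocks (diagonal fun k => (x k : ℂ)) (diagonal fun k => (ζ k : ℂ))
      (diagonal fun k => (ζ k : ℂ))ᴴ (diagonal fun k => (y k : ℂ))).det =
      ((∏ k, (x k * y k - ζ k ^ 2) : ℝ) : ℂ) := by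
    have hyne : ∀ k, (y k : ℂ) ≠ 0 := fun k => by exact_mod_cast (hy k).ne'
    have h3 : (diagonal fun k => ((y k : ℂ))⁻¹) * (diagonal fun k => (y k : ℂ)) = 1 := by
      rw [diagonal_mul_diagonal, ← diagonal_one]
      congr 1
      funext k
      exact inv_mul_cancel₀ (hyne k)
    have h4 : (diagonal fun k => (y k : ℂ)) * (diagonal fun k => ((y k : ℂ))⁻¹) = 1 := by
      rw [diagonal_mul_diagonal, ← diagonal_one]
      congr 1
      funext k
      exact mul_inv_cancel₀ (hyne k)
    let _ : Invertible (diagonal fun k => (y k : ℂ)) := ⟨_, h3, h4⟩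
    rw [det_fromBlocks₂₂]
    have h5 : ⅟(diagonal fun k => (y k : ℂ)) = diagonal fun k => ((y k : ℂ))⁻¹ := rfl
    have h6 : (diagonal fun k => (ζ k : ℂ))ᴴ = diagonal fun k => (ζ k : ℂ) := by
      rw [diagonal_conjTranspose]
      congr 1
      funext k
      simp
    rw [h5, h6, diagonal_mul_diagonal, diagonal_mul_diagonal, diagonal_sub, f3b_det_real,
      det_diagonal, Complex.ofReal_prod, Complex.ofReal_prod, ← Finset.prod_mul_distrib]
    refine Finset.prod_congr rfl fun k _ => ?_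
    push_cast
    field_simp [hyne k]
  unfold JD
  rw [h2, f3b_det_real, f3b_det_real, Complex.ofReal_re, Complex.ofReal_re, Complex.ofReal_re,
    Real.log_prod (fun k _ => (hpos k).ne'), Real.log_prod (fun k _ => (hx k).ne'),
    Real.log_prod (fun k _ => (hy k).ne'), ← Finset.sum_add_distrib, ← Finset.sum_sub_distrib]

end Pool.Agent.LibSchF
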