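import Pool.Agent.LibSchF.F3a
import Pool.Agent.LibSchF.F3b
import Pool.Agent.LibSchTri.S10

open Matrix
open scoped ComplexOrder

namespace Pool.Agent.LibSchF

open Pool.Agent.LibSch Pool.Agent.LibSchTri

theorem f4_diag_real {d l : Type} [Fintype d] [DecidableEq d] [Fintype l] (M : Matrix d l ℂ)
    (v : ℝ) (k : d) :
    (1 + (v : ℂ) • (M * Mᴴ) : Matrix d d ℂ) k k = ((1 + v * ((M * Mᴴ) k k).re : ℝ) : ℂ) := by
  have h : ((M * Mᴴ) k k) = (((M * Mᴴ) k k).re : ℂ) := by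
    have := (isHermitian_mul_conjTranspose_self M).apply k k
    exact (Complex.conj_eq_iff_re.1 this).symm
  rw [Matrix.add_apply, Matrix.one_apply_eq, Matrix.smul_apply, smul_eq_mul]
  conv_lhs => rw [h]
  push_cast
  rfl

theorem f4_diag_nonneg {d l : Type} [Fintype d] [DecidableEq d] [Fintype l] (M : Matrix d l ℂ)
    (k : d) : 0 ≤ ((M * Mᴴ) k k).re := by
  have h := (posSemidef_self_mul_conjTranspose M).diag_nonneg (i := k)
  exact (Complex.le_def.1 h).1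

theorem f4_block {d l : Type} [Fintype d] [DecidableEq d] [Fintype l] [DecidableEq l]
    (M₁ M₂ : Matrix d l ℂ) (ζ : d → ℝ) (h : M₁ * M₂ᴴ = diagonal fun k => (ζ k : ℂ)) (v : ℝ) :
    1 + (v : ℂ) • (fromRows M₁ M₂ * (fromRows M₁ M₂)ᴴ) =
      fromBlocks (1 + (v : ℂ) • (M₁ * M₁ᴴ)) (diagonal fun k => ((v * ζ k : ℝ) : ℂ))
        (diagonal fun k => ((v * ζ k : ℝ) : ℂ))ᴴ (1 + (v : ℂ) • (M₂ * M₂ᴴ)) := by
  have h2 : M₂ * M₁ᴴ = (diagonal fun k => (ζ k : ℂ)) := by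
    have := congrArg conjTranspose h
    rw [conjTranspose_mul, conjTranspose_conjTranspose, diagonal_conjTranspose] at this
    rw [this]
    congr 1
    funext k
    simp
  have hd : (v : ℂ) • (diagonal fun k => (ζ k : ℂ)) = diagonal fun k => ((v * ζ k : ℝ) : ℂ) := by
    rw [← diagonal_smul]
    congr 1
    funext k
    simp
  have hd' : (diagonal fun k => ((v * ζ k : ℝ) : ℂ))ᴴ =
      (diagonal fun k => ((v * ζ k : ℝ) : ℂ) : Matrix d d ℂ) := by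
    rw [diagonal_conjTranspose]
    congr 1
    funext k
    simp
  rw [conjTranspose_fromRows_eq_fromCols_conjTranspose, fromRows_mul_fromCols, h, h2,
    fromBlocks_smul, hd, hd', ← fromBlocks_one, fromBlocks_add, zero_add]

/-- **F4.**  `M₁, M₂` the two block rows of `M`, `M₁ M₂ᴴ` diagonal.  `v = 0`: trivial.  `v > 0`:
`Lg_eq` (S10) for `fromRows M₁ M₂`, `M₁`, `M₂`:
`Lg v M - Lg v M₁ - Lg v M₂ = JD (1 + v M₁ M₁ᴴ) (1 + v M₂ M₂ᴴ) (v ζ)`; `JD_pinch`, `JD_diag`. -/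
theorem Lg_ge {d l : Type} [Fintype d] [DecidableEq d] [Fintype l] [DecidableEq l]
    (M₁ M₂ : Matrix d l ℂ) (ζ : d → ℝ) (h : M₁ * M₂ᴴ = diagonal fun k => (ζ k : ℂ)) (v : ℝ)
    (hv : 0 ≤ v) :
    ∑ k, (Lk v ((M₁ * M₁ᴴ) k k).re ((M₂ * M₂ᴴ) k k).re (ζ k) -
        (v * ((M₁ * M₁ᴴ) k k).re - Real.log (1 + v * ((M₁ * M₁ᴴ) k k).re)) -
        (v * ((M₂ * M₂ᴴ) k k).re - Real.log (1 + v * ((M₂ * M₂ᴴ) k k).re))) ≤
      Lg v (fromRows M₁ M₂) - Lg v M₁ - Lg v M₂ := by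
  have hb := f4_block M₁ M₂ ζ h v
  have hvC : (0 : ℂ) ≤ (v : ℂ) := Complex.zero_le_real.2 hv
  have hpos : (1 + (v : ℂ) • (fromRows M₁ M₂ * (fromRows M₁ M₂)ᴴ)).PosDef :=
    PosDef.one.add_posSemidef ((posSemidef_self_mul_conjTranspose _).smul hvC)
  have hX : ∀ k, 0 < 1 + v * ((M₁ * M₁ᴴ) k k).re := fun k => by
    have := mul_nonneg hv (f4_diag_nonneg M₁ k)
    linarith
  have hY : ∀ k, 0 < 1 + v * ((M₂ * M₂ᴴ) k k).re := fun k => by
    have := mul_nonneg hv (f4_diag_nonneg M₂ k)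
    linarith
  have hpos' := hpos
  rw [hb] at hpos'
  obtain ⟨hp1, hp2⟩ := JD_pinch _ _ (fun k => v * ζ k) hpos'
  have hXe : (diagonal fun k => (1 + (v : ℂ) • (M₁ * M₁ᴴ) : Matrix d d ℂ) k k) =
      diagonal fun k => ((1 + v * ((M₁ * M₁ᴴ) k k).re : ℝ) : ℂ) := by
    congr 1
    funext k
    exact f4_diag_real M₁ v k
  have hYe : (diagonal fun k => (1 + (v : ℂ) • (M₂ * M₂ᴴ) : Matrix d d ℂ) k k) =
      diagonal fun k => ((1 + v * ((M₂ * M₂ᴴ) k k).re : ℝ) : ℂ) := by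
    congr 1
    funext k
    exact f4_diag_real M₂ v k
  rw [hXe, hYe] at hp1 hp2
  have hlt : ∀ k, (v * ζ k) ^ 2 <
      (1 + v * ((M₁ * M₁ᴴ) k k).re) * (1 + v * ((M₂ * M₂ᴴ) k k).re) := by
    intro k
    let e : Fin 2 → d ⊕ d := ![Sum.inl k, Sum.inr k]
    have he : Function.Injective e := by
      intro i j hij
      fin_cases i <;> fin_cases j <;> simp_all [e]
    have h3 := (hp1.submatrix he).det_pos
    rw [det_fin_two] at h3
    simp only [submatrix_apply, e, Matrix.cons_val_zero, Matrix.cons_val_one,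
      fromBlocks_apply₁₁, fromBlocks_apply₁₂, fromBlocks_apply₂₁, fromBlocks_apply₂₂,
      diagonal_apply_eq, conjTranspose_apply] at h3
    rw [Complex.star_def, Complex.conj_ofReal, ← Complex.ofReal_mul, ← Complex.ofReal_mul,
      ← Complex.ofReal_sub, Complex.zero_lt_real] at h3
    nlinarith
  rw [JD_diag _ _ _ hX hY hlt] at hp2
  have hL : Lg v (fromRows M₁ M₂) - Lg v M₁ - Lg v M₂ =
      JD (1 + (v : ℂ) • (M₁ * M₁ᴴ)) (1 + (v : ℂ) • (M₂ * M₂ᴴ))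
        (diagonal fun k => ((v * ζ k : ℝ) : ℂ)) := by
    rw [(Lg_eq v hv (fromRows M₁ M₂)).2, (Lg_eq v hv M₁).2, (Lg_eq v hv M₂).2, hb]
    have htr : (trace (fromRows M₁ M₂ * (fromRows M₁ M₂)ᴴ)).re =
        (trace (M₁ * M₁ᴴ)).re + (trace (M₂ * M₂ᴴ)).re := by
      rw [conjTranspose_fromRows_eq_fromCols_conjTranspose, fromRows_mul_fromCols,
        trace, Fintype.sum_sum_type, Complex.add_re]
      rfl
    rw [htr]
    unfold JD
    ring
  rw [hL]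
  refine le_trans (le_of_eq ?_) hp2
  refine Finset.sum_congr rfl fun k _ => ?_
  unfold Lk
  rw [mul_pow]
  ring

end Pool.Agent.LibSchF
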