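import Pool.Agent.LibSchF.F5c

open Matrix
open scoped ComplexOrder

namespace Pool.Agent.LibSchF

open Pool.Agent.LibSch Pool.Agent.LibSchTri

theorem f5b_sq {n : Type} [Fintype n] [DecidableEq n] (H : Matrix n n ℂ) (hH : H.IsHermitian) :
    (H * H).trace = ((∑ j, hH.eigenvalues j ^ 2 : ℝ) : ℂ) := by
  have h := hH.spectral_theorem
  rw [Unitary.conjStarAlgAut_apply] at h
  set U := hH.eigenvectorUnitary with hU
  have hUU : star (U : Matrix n n ℂ) * (U : Matrix n n ℂ) = 1 := mem_unitaryGroup_iff'.1 U.2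
  have h1 : H * H = (U : Matrix n n ℂ) * ((diagonal (RCLike.ofReal ∘ hH.eigenvalues) *
      diagonal (RCLike.ofReal ∘ hH.eigenvalues)) * star (U : Matrix n n ℂ)) := by
    conv_lhs => rw [h]
    have h2 : (U : Matrix n n ℂ) * diagonal (RCLike.ofReal ∘ hH.eigenvalues) *
        star (U : Matrix n n ℂ) * ((U : Matrix n n ℂ) *
        diagonal (RCLike.ofReal ∘ hH.eigenvalues) * star (U : Matrix n n ℂ)) =
        (U : Matrix n n ℂ) * (diagonal (RCLike.ofReal ∘ hH.eigenvalues) *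
        ((star (U : Matrix n n ℂ) * (U : Matrix n n ℂ)) *
        (diagonal (RCLike.ofReal ∘ hH.eigenvalues) * star (U : Matrix n n ℂ)))) := by
      simp only [Matrix.mul_assoc]
    rw [h2, hUU, Matrix.one_mul]
    simp only [Matrix.mul_assoc]
  rw [h1, Matrix.trace_mul_comm, Matrix.mul_assoc, hUU, Matrix.mul_one, diagonal_mul_diagonal,
    trace_diagonal]
  push_cast
  refine Finset.sum_congr rfl fun j _ => ?_
  simp only [Function.comp_apply, Complex.coe_algebraMap]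
  ring

theorem f5b_pw {m n : Type} [Fintype m] [Fintype n] [DecidableEq n] (M : Matrix m n ℂ) :
    pw (2 * 2) M = ((Mᴴ * M) * (Mᴴ * M)).trace.re := by
  rw [f5b_sq _ (isHermitian_conjTranspose_mul_self M), Complex.ofReal_re]
  unfold pw
  refine Finset.sum_congr rfl fun j _ => ?_
  rw [show ((2 : ℝ) * 2 / 2) = (2 : ℝ) by norm_num, Real.rpow_two]

theorem f5b_FF (x y w : ℝ) : FF 2 x y w = x ^ 2 + y ^ 2 + 2 * w ^ 2 := by
  have h : √((x - y) ^ 2 + 4 * w ^ 2) ^ 2 = (x - y) ^ 2 + 4 * w ^ 2 :=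
    Real.sq_sqrt (by positivity)
  unfold FF lamP lamM
  rw [Real.rpow_two, Real.rpow_two]
  nlinarith [h]

/-- **F5b.**  `s = 2` (equality): `pw 4 M = tr ((Mᴴ M)²) = tr ((M Mᴴ)²)`,
`FF 2 x y w = x² + y² + 2 w²`, both sides are `2 ∑ ζ_k²`. -/
theorem pow_ge_two {d l : Type} [Fintype d] [DecidableEq d] [Fintype l] [DecidableEq l]
    (M₁ M₂ : Matrix d l ℂ) (ζ : d → ℝ) (h : M₁ * M₂ᴴ = diagonal fun k => (ζ k : ℂ)) :
    ∑ k, (FF 2 ((M₁ * M₁ᴴ) k k).re ((M₂ * M₂ᴴ) k k).re (ζ k) -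
        ((M₁ * M₁ᴴ) k k).re ^ (2 : ℝ) - ((M₂ * M₂ᴴ) k k).re ^ (2 : ℝ)) ≤
      pw (2 * 2) (fromRows M₁ M₂) - pw (2 * 2) M₁ - pw (2 * 2) M₂ := by
  have hl : ∑ k, (FF 2 ((M₁ * M₁ᴴ) k k).re ((M₂ * M₂ᴴ) k k).re (ζ k) -
        ((M₁ * M₁ᴴ) k k).re ^ (2 : ℝ) - ((M₂ * M₂ᴴ) k k).re ^ (2 : ℝ)) =
        ∑ k, 2 * ζ k ^ 2 := by
    refine Finset.sum_congr rfl fun k _ => ?_
    rw [f5b_FF, Real.rpow_two, Real.rpow_two]
    ring
  have hc : (M₁ᴴ * M₁ * (M₂ᴴ * M₂)).trace = ((∑ k, ζ k ^ 2 : ℝ) : ℂ) := by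
    have h1 : M₁ᴴ * M₁ * (M₂ᴴ * M₂) = M₁ᴴ * ((M₁ * M₂ᴴ) * M₂) := by
      simp only [Matrix.mul_assoc]
    have h2 : M₂ * M₁ᴴ = diagonal fun k => (ζ k : ℂ) := by
      have h3 := congrArg conjTranspose h
      rw [conjTranspose_mul, conjTranspose_conjTranspose, diagonal_conjTranspose] at h3
      rw [h3]
      congr 1
      funext k
      simp
    rw [h1, Matrix.trace_mul_comm, Matrix.mul_assoc, h, h2, diagonal_mul_diagonal, trace_diagonal]
    push_cast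
    exact Finset.sum_congr rfl fun k _ => by ring
  have hr : pw (2 * 2) (fromRows M₁ M₂) - pw (2 * 2) M₁ - pw (2 * 2) M₂ = 2 * ∑ k, ζ k ^ 2 := by
    rw [f5b_pw, f5b_pw, f5b_pw, conjTranspose_fromRows_eq_fromCols_conjTranspose,
      fromCols_mul_fromRows, Matrix.add_mul, Matrix.mul_add, Matrix.mul_add, trace_add, trace_add,
      trace_add, Matrix.trace_mul_comm (M₂ᴴ * M₂) (M₁ᴴ * M₁), hc]
    simp only [Complex.add_re, Complex.ofReal_re]
    ring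
  rw [hl, hr, Finset.mul_sum]

end Pool.Agent.LibSchF
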