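import Pool.Agent.LibSchF.F5a
import Pool.Agent.LibSchF.F5b

open Matrix
open scoped ComplexOrder

namespace Pool.Agent.LibSchF

open Pool.Agent.LibSch Pool.Agent.LibSchTri

theorem pow_ge {d l : Type} [Fintype d] [DecidableEq d] [Fintype l] [DecidableEq l]
    (s : ℝ) (h1 : 1 < s) (h2 : s ≤ 2)
    (M₁ M₂ : Matrix d l ℂ) (ζ : d → ℝ) (h : M₁ * M₂ᴴ = diagonal fun k => (ζ k : ℂ)) :
    ∑ k, (FF s ((M₁ * M₁ᴴ) k k).re ((M₂ * M₂ᴴ) k k).re (ζ k) -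
        ((M₁ * M₁ᴴ) k k).re ^ s - ((M₂ * M₂ᴴ) k k).re ^ s) ≤
      pw (2 * s) (fromRows M₁ M₂) - pw (2 * s) M₁ - pw (2 * s) M₂ := by
  rcases h2.lt_or_eq with h2 | h2
  · exact pow_ge_lt s h1 h2 M₁ M₂ ζ h
  · subst h2
    exact pow_ge_two M₁ M₂ ζ h

end Pool.Agent.LibSchF
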