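import Pool.Agent.LibSchF.Defs

open Matrix
open scoped ComplexOrder

namespace Pool.Agent.LibSchF

open Pool.Agent.LibSch Pool.Agent.LibSchTri

theorem f5c_diag {d l : Type} [Fintype d] [DecidableEq d] [Fintype l] [DecidableEq l]
    (M : Matrix d l ℂ) (k : d) : ((M * Mᴴ) k k).re = ∑ j, ‖M k j‖ ^ 2 := by
  rw [Matrix.mul_apply, Complex.re_sum]
  refine Finset.sum_congr rfl fun j _ => ?_
  rw [Matrix.conjTranspose_apply, RCLike.star_def, Complex.mul_conj, Complex.ofReal_re,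
    Complex.normSq_eq_norm_sq]

/-- **F5c.**  diagonal entries: `ζ_k² ≤ X_kk Y_kk` (Cauchy-Schwarz for the `k`-th rows) -/
theorem diag_cs {d l : Type} [Fintype d] [DecidableEq d] [Fintype l] [DecidableEq l]
    (M₁ M₂ : Matrix d l ℂ) (ζ : d → ℝ) (h : M₁ * M₂ᴴ = diagonal fun k => (ζ k : ℂ)) (k : d) :
    0 ≤ ((M₁ * M₁ᴴ) k k).re ∧ 0 ≤ ((M₂ * M₂ᴴ) k k).re ∧
      ζ k ^ 2 ≤ ((M₁ * M₁ᴴ) k k).re * ((M₂ * M₂ᴴ) k k).re := by
  rw [f5c_diag, f5c_diag]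
  refine ⟨Finset.sum_nonneg fun j _ => sq_nonneg _, Finset.sum_nonneg fun j _ => sq_nonneg _, ?_⟩
  have h1 : (∑ j, M₁ k j * star (M₂ k j)) = (ζ k : ℂ) := by
    have := congrFun (congrFun h k) k
    rw [Matrix.mul_apply, Matrix.diagonal_apply_eq] at this
    simpa [Matrix.conjTranspose_apply] using this
  have h2 : |ζ k| ≤ ∑ j, ‖M₁ k j‖ * ‖M₂ k j‖ := by
    have h3 : ‖(ζ k : ℂ)‖ ≤ ∑ j, ‖M₁ k j * star (M₂ k j)‖ := by
      rw [← h1]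
      exact norm_sum_le _ _
    rw [Complex.norm_real, Real.norm_eq_abs] at h3
    refine h3.trans (le_of_eq (Finset.sum_congr rfl fun j _ => ?_))
    rw [norm_mul, norm_star]
  have h4 : (∑ j, ‖M₁ k j‖ * ‖M₂ k j‖) ^ 2 ≤ (∑ j, ‖M₁ k j‖ ^ 2) * ∑ j, ‖M₂ k j‖ ^ 2 :=
    Finset.sum_mul_sq_le_sq_mul_sq _ _ _
  refine le_trans ?_ h4
  rw [← sq_abs]
  exact pow_le_pow_left₀ (abs_nonneg _) h2 2

end Pool.Agent.LibSchF
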