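import Pool.Agent.LibSchF.F4
import Pool.Agent.LibSchF.F5c

open Matrix MeasureTheory Set
open scoped ComplexOrder

namespace Pool.Agent.LibSchF

open Pool.Agent.LibSch Pool.Agent.LibSchTri

theorem f5a_lam (x y w : ℝ) (hx : 0 ≤ x) (hy : 0 ≤ y) (hw : w ^ 2 ≤ x * y) :
    0 ≤ lamP x y w ∧ 0 ≤ lamM x y w ∧ lamP x y w + lamM x y w = x + y ∧
      lamP x y w * lamM x y w = x * y - w ^ 2 := by
  have h0 : 0 ≤ (x - y) ^ 2 + 4 * w ^ 2 := by positivity
  have hs := Real.sq_sqrt h0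
  have hs0 := Real.sqrt_nonneg ((x - y) ^ 2 + 4 * w ^ 2)
  have h1 : √((x - y) ^ 2 + 4 * w ^ 2) ≤ x + y := by
    refine Real.sqrt_le_iff.2 ⟨by linarith, ?_⟩
    nlinarith
  unfold lamP lamM
  refine ⟨by linarith, by linarith, by ring, ?_⟩
  have h2 : (x + y + √((x - y) ^ 2 + 4 * w ^ 2)) / 2 * ((x + y - √((x - y) ^ 2 + 4 * w ^ 2)) / 2) =
      ((x + y) ^ 2 - √((x - y) ^ 2 + 4 * w ^ 2) ^ 2) / 4 := by ring
  rw [h2, hs]
  ring

theorem f5a_Lk (v x y w : ℝ) (hv : 0 ≤ v) (hx : 0 ≤ x) (hy : 0 ≤ y) (hw : w ^ 2 ≤ x * y) :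
    Lk v x y w = (lamP x y w * v - Real.log (1 + lamP x y w * v)) +
      (lamM x y w * v - Real.log (1 + lamM x y w * v)) := by
  obtain ⟨ha, hb, h1, h2⟩ := f5a_lam x y w hx hy hw
  set a := lamP x y w with hadef
  set b := lamM x y w with hbdef
  have hA : (1 + a * v) ≠ 0 := by
    have := mul_nonneg ha hv
    linarith
  have hB : (1 + b * v) ≠ 0 := by
    have := mul_nonneg hb hv
    linarith
  have h3 : (1 + v * x) * (1 + v * y) - v ^ 2 * w ^ 2 = (1 + a * v) * (1 + b * v) := by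
    have e1 : (1 + a * v) * (1 + b * v) = 1 + (a + b) * v + a * b * v ^ 2 := by ring
    rw [e1, h1, h2]
    ring
  unfold Lk
  rw [h3, Real.log_mul hA hB, ← h1]
  ring

theorem f5a_int (f g h : ℝ → ℝ) (hf : IntegrableOn f (Ioi 0)) (hg : IntegrableOn g (Ioi 0))
    (hh : IntegrableOn h (Ioi 0)) : IntegrableOn (fun v => f v - g v - h v) (Ioi 0) ∧
      ∫ v in Ioi 0, (f v - g v - h v) = (∫ v in Ioi 0, f v) - (∫ v in Ioi 0, g v) -
        ∫ v in Ioi 0, h v := by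
  have h1 : IntegrableOn (fun v => f v - g v) (Ioi 0) := hf.sub hg
  refine ⟨h1.sub hh, ?_⟩
  rw [integral_sub h1 hh, integral_sub hf hg]

/-- **F5a.**  integrate F4 against `v ^ (-s - 1)`, `1 < s < 2` (`pw_integral` of S10,
`ker_integral`, `ker_const_pos` of S9; for the two eigenvalues `lamP`, `lamM` of `[x, w; w, y]`:
`Lk v x y w = (lamP v - log (1 + lamP v)) + (lamM v - log (1 + lamM v))`). -/
theorem pow_ge_lt {d l : Type} [Fintype d] [DecidableEq d] [Fintype l] [DecidableEq l]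
    (s : ℝ) (h1 : 1 < s) (h2 : s < 2)
    (M₁ M₂ : Matrix d l ℂ) (ζ : d → ℝ) (h : M₁ * M₂ᴴ = diagonal fun k => (ζ k : ℂ)) :
    ∑ k, (FF s ((M₁ * M₁ᴴ) k k).re ((M₂ * M₂ᴴ) k k).re (ζ k) -
        ((M₁ * M₁ᴴ) k k).re ^ s - ((M₂ * M₂ᴴ) k k).re ^ s) ≤
      pw (2 * s) (fromRows M₁ M₂) - pw (2 * s) M₁ - pw (2 * s) M₂ := by
  have hcs := fun k => diag_cs M₁ M₂ ζ h k
  have hF4 := fun v hv => Lg_ge M₁ M₂ ζ h v hv
  set x : d → ℝ := fun k => ((M₁ * M₁ᴴ) k k).re with hx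
  set y : d → ℝ := fun k => ((M₂ * M₂ᴴ) k k).re with hy
  have hlam := fun k => f5a_lam (x k) (y k) (ζ k) (hcs k).1 (hcs k).2.1 (hcs k).2.2
  have hc := ker_const_pos s h1 h2
  set c := ∫ v in Ioi 0, ker s 1 v with hcdef
  have ka := fun k => ker_integral s h1 h2 _ (hlam k).1
  have kb := fun k => ker_integral s h1 h2 _ (hlam k).2.1
  have kx := fun k => ker_integral s h1 h2 (x k) (hcs k).1
  have ky := fun k => ker_integral s h1 h2 (y k) (hcs k).2.1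
  have p0 := pw_integral s h1 h2 (fromRows M₁ M₂)
  have p1 := pw_integral s h1 h2 M₁
  have p2 := pw_integral s h1 h2 M₂
  have kab : ∀ k, IntegrableOn (fun v => ker s (lamP (x k) (y k) (ζ k)) v +
      ker s (lamM (x k) (y k) (ζ k)) v) (Ioi 0) := fun k => (ka k).1.add (kb k).1
  have hLi := fun k => f5a_int _ _ _ (kab k) (kx k).1 (ky k).1
  have hL : ∫ v in Ioi 0, ∑ k, (ker s (lamP (x k) (y k) (ζ k)) v +
      ker s (lamM (x k) (y k) (ζ k)) v - ker s (x k) v - ker s (y k) v) =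
      (∑ k, (FF s (x k) (y k) (ζ k) - x k ^ s - y k ^ s)) * c := by
    rw [integral_finsetSum _ fun k _ => (hLi k).1, Finset.sum_mul]
    refine Finset.sum_congr rfl fun k _ => ?_
    refine (hLi k).2.trans ?_
    rw [integral_add (ka k).1 (kb k).1, (ka k).2, (kb k).2, (kx k).2, (ky k).2]
    unfold FF
    ring
  have hRi := f5a_int _ _ _ p0.1 p1.1 p2.1
  have hR : ∫ v in Ioi 0, (Lg v (fromRows M₁ M₂) * v ^ (-s - 1) - Lg v M₁ * v ^ (-s - 1) -
      Lg v M₂ * v ^ (-s - 1)) =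
      (pw (2 * s) (fromRows M₁ M₂) - pw (2 * s) M₁ - pw (2 * s) M₂) * c := by
    rw [hRi.2, p0.2, p1.2, p2.2]
    ring
  refine le_of_mul_le_mul_right ?_ hc
  rw [← hL, ← hR]
  refine setIntegral_mono_on (integrable_finsetSum _ fun k _ => (hLi k).1)
    hRi.1 measurableSet_Ioi fun v hv => ?_
  have hv0 : (0 : ℝ) < v := hv
  have h5 := mul_le_mul_of_nonneg_right (hF4 v hv0.le) (Real.rpow_nonneg hv0.le (-s - 1))
  have e1 : ∑ k, (ker s (lamP (x k) (y k) (ζ k)) v +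
      ker s (lamM (x k) (y k) (ζ k)) v - ker s (x k) v - ker s (y k) v) =
      (∑ k, (Lk v (x k) (y k) (ζ k) - (v * x k - Real.log (1 + v * x k)) -
        (v * y k - Real.log (1 + v * y k)))) * v ^ (-s - 1) := by
    rw [Finset.sum_mul]
    refine Finset.sum_congr rfl fun k _ => ?_
    rw [f5a_Lk v (x k) (y k) (ζ k) hv0.le (hcs k).1 (hcs k).2.1 (hcs k).2.2]
    unfold ker
    rw [mul_comm v (x k), mul_comm v (y k)]
    ring
  have e2 : Lg v (fromRows M₁ M₂) * v ^ (-s - 1) - Lg v M₁ * v ^ (-s - 1) -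
      Lg v M₂ * v ^ (-s - 1) = (Lg v (fromRows M₁ M₂) - Lg v M₁ - Lg v M₂) * v ^ (-s - 1) := by
    ring
  rw [e1, e2]
  exact h5

end Pool.Agent.LibSchF
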