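import Pool.Agent.LibSchF.F6a

open Matrix
open scoped ComplexOrder

namespace Pool.Agent.LibSchF

open Pool.Agent.LibSch Pool.Agent.LibSchTri

theorem f6b_FF_zero (s a b : ℝ) : FF s a b 0 = a ^ s + b ^ s := by
  unfold FF lamP lamM
  have h : √((a - b) ^ 2 + 4 * (0 : ℝ) ^ 2) = |a - b| := by
    rw [show (a - b) ^ 2 + 4 * (0 : ℝ) ^ 2 = (a - b) ^ 2 by ring, Real.sqrt_sq_eq_abs]
  rw [h]
  rcases le_total a b with hab | hab
  · rw [abs_of_nonpos (sub_nonpos.2 hab)]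
    have e1 : (a + b + -(a - b)) / 2 = b := by ring
    have e2 : (a + b - -(a - b)) / 2 = a := by ring
    rw [e1, e2, add_comm]
  · rw [abs_of_nonneg (sub_nonneg.2 hab)]
    have e1 : (a + b + (a - b)) / 2 = a := by ring
    have e2 : (a + b - (a - b)) / 2 = b := by ring
    rw [e1, e2]

theorem f6b_extra (s a b : ℝ) (hs : 0 < s) (ha : 0 ≤ a) (hb : 0 ≤ b) :
    PhiE 0 s ![a, 0] ![0, b] = a + b := by
  have h1 : (1 / s : ℝ) ≠ 0 := by positivity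
  have h2 : (1 / (2 * s) : ℝ) ≠ 0 := by positivity
  have e : ∀ c : ℝ, 0 ≤ c → (c ^ (1 / s)) ^ s = c := by
    intro c hc
    rw [← Real.rpow_mul hc, one_div, inv_mul_cancel₀ hs.ne', Real.rpow_one]
  unfold PhiE
  simp only [Fin.sum_univ_two, Matrix.cons_val_zero, Matrix.cons_val_one,
    Real.zero_rpow h1, Real.zero_rpow h2, mul_zero, zero_mul, add_zero, zero_add]
  rw [f6b_FF_zero, e a ha, e b hb]

/-- **F6b.**  sum over `k` and the two extra components `(lx, 0, 0)`, `(0, ly, 0)`,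
`lx = X - ∑ x_k ^ s`, `ly = Y - ∑ y_k ^ s` (`Phi_subadd` in `LibSch/Closure.lean` with
`ι = d ⊕ Bool` or twice `PhiE_two_sub`; `FF_PhiE`;
`PhiE 0 (s/2) ![lx, 0] ![0, 0] = lx`). -/
theorem FF_assemble {d : Type} [Fintype d] [DecidableEq d] (s : ℝ) (h1 : 1 ≤ s) (h2 : s ≤ 2)
    (x y w : d → ℝ) (X Y : ℝ) (hx : ∀ k, 0 ≤ x k) (hy : ∀ k, 0 ≤ y k) (hw : ∀ k, 0 ≤ w k)
    (h : ∀ k, w k ^ 2 ≤ x k * y k) (hX : ∑ k, x k ^ s ≤ X) (hY : ∑ k, y k ^ s ≤ Y) :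
    PhiE 0 (s / 2) ![X, ∑ k, w k ^ s] ![∑ k, w k ^ s, Y] ≤
      ∑ k, (FF s (x k) (y k) (w k) - x k ^ s - y k ^ s) + X + Y := by
  have hs1 : 1 / 2 ≤ s / 2 := by linarith
  have hs2 : s / 2 ≤ 1 := by linarith
  have hnn : ∀ z : d → ℝ, (∀ k, 0 ≤ z k) → ∀ k, 0 ≤ z k ^ s :=
    fun z hz k => Real.rpow_nonneg (hz k) s
  have hxs := hnn x hx
  have hys := hnn y hy
  have hws := hnn w hw
  have hlx : 0 ≤ X - ∑ k, x k ^ s := sub_nonneg.2 hX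
  have hly : 0 ≤ Y - ∑ k, y k ^ s := sub_nonneg.2 hY
  have hpos2 : ∀ (u v : ℝ), 0 ≤ u → 0 ≤ v → ∀ j : Fin 2, 0 ≤ (![u, v] : Fin 2 → ℝ) j := by
    intro u v hu hv j
    refine Fin.cases ?_ (fun i => ?_) j
    · exact hu
    · refine Fin.cases ?_ (fun i => i.elim0) i
      exact hv
  have hsub := Phi_subadd (N := 2) (ι := d) (s / 2) hs1 hs2
    (fun k => ![x k ^ s, w k ^ s]) (fun k => ![w k ^ s, y k ^ s])
    (fun k => hpos2 _ _ (hxs k) (hws k)) (fun k => hpos2 _ _ (hws k) (hys k))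
  have hFF : ∀ k ∈ (Finset.univ : Finset d),
      PhiE 0 (s / 2) ![x k ^ s, w k ^ s] ![w k ^ s, y k ^ s] = FF s (x k) (y k) (w k) :=
    fun k _ => FF_PhiE s (x k) (y k) (w k) h1 (hx k) (hy k) (hw k) (h k)
  rw [Finset.sum_congr rfl hFF] at hsub
  have htwo := PhiE_two_sub (N := 2) (s / 2) hs1 hs2
    (fun j => ∑ k, (![x k ^ s, w k ^ s] : Fin 2 → ℝ) j)
    (fun j => ∑ k, (![w k ^ s, y k ^ s] : Fin 2 → ℝ) j)
    ![X - ∑ k, x k ^ s, 0] ![0, Y - ∑ k, y k ^ s]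
    (fun j => Finset.sum_nonneg fun k _ => hpos2 _ _ (hxs k) (hws k) j)
    (fun j => Finset.sum_nonneg fun k _ => hpos2 _ _ (hws k) (hys k) j)
    (hpos2 _ _ hlx le_rfl) (hpos2 _ _ le_rfl hly)
  rw [f6b_extra (s / 2) _ _ (by linarith) hlx hly] at htwo
  have e1 : (fun j : Fin 2 => ∑ k, (![x k ^ s, w k ^ s] : Fin 2 → ℝ) j +
      (![X - ∑ k, x k ^ s, 0] : Fin 2 → ℝ) j) = ![X, ∑ k, w k ^ s] := by
    funext j
    refine Fin.cases ?_ (fun i => ?_) j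
    · show ∑ k, x k ^ s + (X - ∑ k, x k ^ s) = X
      ring
    · refine Fin.cases ?_ (fun i => i.elim0) i
      show ∑ k, w k ^ s + 0 = ∑ k, w k ^ s
      ring
  have e2 : (fun j : Fin 2 => ∑ k, (![w k ^ s, y k ^ s] : Fin 2 → ℝ) j +
      (![0, Y - ∑ k, y k ^ s] : Fin 2 → ℝ) j) = ![∑ k, w k ^ s, Y] := by
    funext j
    refine Fin.cases ?_ (fun i => ?_) j
    · show ∑ k, w k ^ s + 0 = ∑ k, w k ^ s
      ring
    · refine Fin.cases ?_ (fun i => i.elim0) i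
      show ∑ k, y k ^ s + (Y - ∑ k, y k ^ s) = Y
      ring
  rw [e1, e2] at htwo
  rw [Finset.sum_sub_distrib, Finset.sum_sub_distrib]
  linarith

end Pool.Agent.LibSchF
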