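import Pool.Agent.LibSchF.F5
import Pool.Agent.LibSchF.F6b
import Pool.Agent.LibSchTri.S11
import Pool.Agent.LibSch.PwBasic

open Matrix
open scoped ComplexOrder

namespace Pool.Agent.LibSchF

open Pool.Agent.LibSch Pool.Agent.LibSchTri

/-- **F6** (King's theorem for psd `2 × 2` block matrices, `1 < s ≤ 2`, gauged form). -/
theorem king {d l : Type} [Fintype d] [DecidableEq d] [Fintype l] [DecidableEq l]
    (s : ℝ) (h1 : 1 < s) (h2 : s ≤ 2)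
    (M₁ M₂ : Matrix d l ℂ) (ζ : d → ℝ) (hζ : ∀ k, 0 ≤ ζ k)
    (h : M₁ * M₂ᴴ = diagonal fun k => (ζ k : ℂ)) :
    PhiE 0 (s / 2) ![pw (2 * s) M₁, ∑ k, ζ k ^ s] ![∑ k, ζ k ^ s, pw (2 * s) M₂] ≤
      pw (2 * s) (fromRows M₁ M₂) := by
  have h0 := pow_ge s h1 h2 M₁ M₂ ζ h
  have hX : ∑ k, ((M₁ * M₁ᴴ) k k).re ^ s ≤ pw (2 * s) M₁ := by
    have := diag_pow_le s h1.le M₁ᴴ
    rwa [conjTranspose_conjTranspose, pw_conjTranspose _ (by linarith)] at this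
  have hY : ∑ k, ((M₂ * M₂ᴴ) k k).re ^ s ≤ pw (2 * s) M₂ := by
    have := diag_pow_le s h1.le M₂ᴴ
    rwa [conjTranspose_conjTranspose, pw_conjTranspose _ (by linarith)] at this
  have h3 := FF_assemble s h1.le h2 (fun k => ((M₁ * M₁ᴴ) k k).re) (fun k => ((M₂ * M₂ᴴ) k k).re) ζ
    _ _ (fun k => (diag_cs M₁ M₂ ζ h k).1) (fun k => (diag_cs M₁ M₂ ζ h k).2.1) hζ
    (fun k => (diag_cs M₁ M₂ ζ h k).2.2) hX hY
  linarith

end Pool.Agent.LibSchF
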