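import Pool.Agent.LibSch.Closure
import Pool.Agent.LibSch.Two
import Pool.Agent.LibSchTri.Defs

open Matrix
open scoped ComplexOrder

namespace Pool.Agent.LibSchF

open Pool.Agent.LibSch Pool.Agent.LibSchTri

/-- **F6a.**  the `s`-th powers of the eigenvalues of the psd matrix `T = [x, w; w, y]`, computed
from `T²`: unfold `PhiE`, `two_aux` (in `LibSch/Two.lean`) with `a = lamP²`, `b = lamM²`. -/
theorem FF_PhiE (s x y w : ℝ) (hs : 1 ≤ s) (hx : 0 ≤ x) (hy : 0 ≤ y) (hw : 0 ≤ w)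
    (h : w ^ 2 ≤ x * y) :
    PhiE 0 (s / 2) ![x ^ s, w ^ s] ![w ^ s, y ^ s] = FF s x y w := by
  have hs0 : s ≠ 0 := by linarith
  have e1 : ∀ t : ℝ, 0 ≤ t → (t ^ s) ^ (1 / (s / 2)) = t ^ 2 := by
    intro t ht
    rw [← Real.rpow_mul ht, ← Real.rpow_natCast t 2]
    congr 1
    field_simp
    norm_num
  have e2 : ∀ t : ℝ, 0 ≤ t → (t ^ s) ^ (1 / (2 * (s / 2))) = t := by
    intro t ht
    rw [← Real.rpow_mul ht]
    have h1 : s * (1 / (2 * (s / 2))) = 1 := by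
      field_simp
    rw [h1, Real.rpow_one]
  rw [PhiE, Fin.sum_univ_two, Fin.sum_univ_two, Fin.sum_univ_two]
  simp only [Matrix.cons_val_zero, Matrix.cons_val_one]
  rw [e1 x hx, e1 w hw, e1 y hy, e2 x hx, e2 w hw, e2 y hy, zero_add, zero_add]
  set r := √((x - y) ^ 2 + 4 * w ^ 2) with hr
  have hr2 : r ^ 2 = (x - y) ^ 2 + 4 * w ^ 2 := by
    rw [hr, Real.sq_sqrt (by positivity)]
  have hr0 : 0 ≤ r := Real.sqrt_nonneg _
  have hP : lamP x y w = (x + y + r) / 2 := rfl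
  have hM : lamM x y w = (x + y - r) / 2 := rfl
  have hP0 : 0 ≤ lamP x y w := by rw [hP]; positivity
  have hM0 : 0 ≤ lamM x y w := by
    rw [hM]
    have h1 : r ≤ x + y := by
      rw [hr, Real.sqrt_le_left (by positivity)]
      nlinarith
    linarith
  have h1 : lamP x y w ^ 2 + lamM x y w ^ 2 = (x ^ 2 + w ^ 2) + (w ^ 2 + y ^ 2) := by
    rw [hP, hM]
    nlinarith
  have h2 : lamP x y w ^ 2 * lamM x y w ^ 2 =
      (x ^ 2 + w ^ 2) * (w ^ 2 + y ^ 2) - (x * w + w * y) ^ 2 := by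
    have h3 : lamP x y w * lamM x y w = x * y - w ^ 2 := by
      rw [hP, hM]
      nlinarith
    rw [← mul_pow, h3]
    ring
  rw [← two_aux (s / 2) _ _ _ _ _ h1 h2]
  have e3 : ∀ t : ℝ, 0 ≤ t → (t ^ 2) ^ (s / 2) = t ^ s := by
    intro t ht
    rw [← Real.rpow_natCast t 2, ← Real.rpow_mul ht]
    congr 1
    push_cast
    ring
  rw [e3 _ hP0, e3 _ hM0, FF]

end Pool.Agent.LibSchF
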