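import Pool.Agent.LibSchTri.S14
import Pool.Agent.LibSch.PwBasic

open Matrix
open scoped ComplexOrder

namespace Pool.Agent.LibSchF

open Pool.Agent.LibSch Pool.Agent.LibSchTri

theorem f7a_S {n : Type} [Fintype n] [DecidableEq n] {H : Matrix n n ℂ}
    (hH : H.IsHermitian) (s : ℝ) : ∑ i, hH.eigenvalues i ^ s = PwBasic_S s H := by
  unfold PwBasic_S
  rw [hH.roots_charpoly_eq_eigenvalues, Multiset.map_map]
  rfl

theorem f7a_pw {m n : Type} [Fintype m] [DecidableEq m] [Fintype n] [DecidableEq n] (p : ℝ)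
    (hp : 0 < p) (M : Matrix m n ℂ) : pw p M = PwBasic_S (p / 2) (M * Mᴴ) := by
  rw [← pw_conjTranspose p hp, PwBasic_pw, conjTranspose_conjTranspose]

/-- **F7a** (trace Hölder), from `trace_mul_le_holder` (S14) with exponents `s` and `q / 2`; the
eigenvalues of `M Mᴴ`: see the private lemmas `s15_S`, `s15_pw` of S15. -/
theorem holder_diag {d l n : Type} [Fintype d] [DecidableEq d] [Fintype l] [DecidableEq l]
    [Fintype n] [DecidableEq n] (q s : ℝ) (hq : 2 < q) (hs : s = q / (q - 2))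
    (M : Matrix d l ℂ) (A : Matrix d n ℂ) :
    (trace ((M * Mᴴ) * (A * Aᴴ))).re ≤ pw (2 * s) M ^ (1 / s) * pw q A ^ (2 / q) := by
  have hq2 : 0 < q - 2 := by linarith
  have hq0 : 0 < q := by linarith
  have hs0 : 0 < s := by rw [hs]; positivity
  have hs1 : 1 < s := by
    rw [hs, lt_div_iff₀ hq2]
    linarith
  have hrs : s.HolderConjugate (q / 2) := by
    rw [Real.holderConjugate_iff]
    refine ⟨hs1, ?_⟩
    rw [hs]
    field_simp
    ring
  have hP : (M * Mᴴ).PosSemidef := posSemidef_self_mul_conjTranspose _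
  have hQ : (A * Aᴴ).PosSemidef := posSemidef_self_mul_conjTranspose _
  have h := trace_mul_le_holder (M * Mᴴ) (A * Aᴴ) hP hQ s (q / 2) hrs
  rw [f7a_S, f7a_S] at h
  rw [f7a_pw (2 * s) (by positivity), f7a_pw q hq0]
  have e1 : 2 * s / 2 = s := by ring
  have e2 : 2 / q = 1 / (q / 2) := by
    field_simp
  rw [e1, e2]
  exact h

end Pool.Agent.LibSchF
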