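import Pool.Agent.LibSchTri.S11
import Pool.Agent.LibSch.PwBasic

open Matrix
open scoped ComplexOrder

namespace Pool.Agent.LibSchF

open Pool.Agent.LibSch Pool.Agent.LibSchTri

theorem f7b_diag {d n : Type} [Fintype n] (A : Matrix d n ℂ) (k : d) :
    ((A * Aᴴ) k k).re = ∑ j, ‖A k j‖ ^ 2 := by
  rw [Matrix.mul_apply, Complex.re_sum]
  refine Finset.sum_congr rfl fun j _ => ?_
  rw [conjTranspose_apply, RCLike.star_def, Complex.mul_conj, Complex.ofReal_re,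
    Complex.normSq_eq_norm_sq]

theorem f7b_diag_nonneg {d n : Type} [Fintype n] (A : Matrix d n ℂ) (k : d) :
    0 ≤ ((A * Aᴴ) k k).re := by
  rw [f7b_diag]
  exact Finset.sum_nonneg fun j _ => sq_nonneg _

/-- Cauchy-Schwarz for rows -/
theorem f7b_cs {d n : Type} [Fintype n] (A B : Matrix d n ℂ) (k : d) :
    ((B * Aᴴ) k k).re ≤ √((A * Aᴴ) k k).re * √((B * Bᴴ) k k).re := by
  have h1 : ((B * Aᴴ) k k).re ≤ ∑ j, ‖A k j‖ * ‖B k j‖ := by
    rw [Matrix.mul_apply, Complex.re_sum]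
    refine Finset.sum_le_sum fun j _ => ?_
    refine le_trans (Complex.re_le_norm _) ?_
    rw [conjTranspose_apply, norm_mul, norm_star, mul_comm]
  refine le_trans h1 ?_
  rw [← Real.sqrt_mul (f7b_diag_nonneg A k), f7b_diag, f7b_diag]
  refine Real.le_sqrt_of_sq_le ?_
  exact Finset.sum_mul_sq_le_sq_mul_sq _ _ _

theorem f7b_pw {d n : Type} [Fintype d] [DecidableEq d] [Fintype n] [DecidableEq n]
    (q : ℝ) (hq : 2 < q) (A : Matrix d n ℂ) :
    ∑ k, (((A * Aᴴ) k k).re) ^ (q / 2) ≤ pw q A := by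
  have h := diag_pow_le (q / 2) (by linarith) Aᴴ
  rw [conjTranspose_conjTranspose, show 2 * (q / 2) = q by ring,
    pw_conjTranspose q (by linarith)] at h
  exact h

/-- **F7b** (the off-diagonal term).  `|(B Aᴴ)_kk| ≤ ((A Aᴴ)_kk)^{1/2} ((B Bᴴ)_kk)^{1/2}`
(Cauchy-Schwarz), the three term Hölder inequality for sums with exponents `s, q, q`
(`Real.inner_le_Lp_mul_Lq` twice, or `Real.inner_le_Lp_mul_Lq` and Cauchy-Schwarz), and
`∑ ((A Aᴴ)_kk) ^ (q/2) ≤ pw q A` (`diag_pow_le` of S11 for `Aᴴ` and `pw_conjTranspose`). -/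
theorem holder_off {d n : Type} [Fintype d] [DecidableEq d] [Fintype n] [DecidableEq n]
    (q s : ℝ) (hq : 2 < q) (hs : s = q / (q - 2)) (ζ : d → ℝ) (hζ : ∀ k, 0 ≤ ζ k)
    (A B : Matrix d n ℂ) :
    (trace ((diagonal fun k => (ζ k : ℂ)) * (B * Aᴴ))).re ≤
      (∑ k, ζ k ^ s) ^ (1 / s) * (pw q A ^ (1 / q) * pw q B ^ (1 / q)) := by
  have hq0 : 0 < q := by linarith
  have hq2 : 0 < q - 2 := by linarith
  have hs0 : 0 < s := by rw [hs]; positivity
  set a : d → ℝ := fun k => ((A * Aᴴ) k k).re with ha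
  set b : d → ℝ := fun k => ((B * Bᴴ) k k).re with hb
  have ha0 : ∀ k, 0 ≤ a k := f7b_diag_nonneg A
  have hb0 : ∀ k, 0 ≤ b k := f7b_diag_nonneg B
  have h1 : (trace ((diagonal fun k => (ζ k : ℂ)) * (B * Aᴴ))).re ≤
      ∑ k, ζ k * (√(a k) * √(b k)) := by
    rw [Matrix.trace, Complex.re_sum]
    refine Finset.sum_le_sum fun k _ => ?_
    rw [Matrix.diag_apply, Matrix.diagonal_mul, Complex.re_ofReal_mul]
    exact mul_le_mul_of_nonneg_left (f7b_cs A B k) (hζ k)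
  -- Hölder with the exponents `s` and `q / 2`
  have hconj : s.HolderConjugate (q / 2) := by
    rw [Real.holderConjugate_iff]
    constructor
    · rw [hs, lt_div_iff₀ hq2]; linarith
    · rw [hs]
      field_simp
      ring
  have h2 := Real.inner_le_Lp_mul_Lq_of_nonneg Finset.univ hconj (f := ζ)
    (g := fun k => √(a k) * √(b k)) (fun k _ => hζ k)
    (fun k _ => mul_nonneg (Real.sqrt_nonneg _) (Real.sqrt_nonneg _))
  have h3 : ∑ k, (√(a k) * √(b k)) ^ (q / 2) ≤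
      (∑ k, a k ^ (q / 2)) ^ (1 / 2 : ℝ) * (∑ k, b k ^ (q / 2)) ^ (1 / 2 : ℝ) := by
    have h4 := Real.inner_le_Lp_mul_Lq_of_nonneg Finset.univ
      (show (2 : ℝ).HolderConjugate 2 from Real.HolderConjugate.two_two)
      (f := fun k => √(a k) ^ (q / 2)) (g := fun k => √(b k) ^ (q / 2))
      (fun k _ => Real.rpow_nonneg (Real.sqrt_nonneg _) _)
      (fun k _ => Real.rpow_nonneg (Real.sqrt_nonneg _) _)
    have e1 : ∀ c : ℝ, 0 ≤ c → (√c ^ (q / 2)) ^ (2 : ℝ) = c ^ (q / 2) := by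
      intro c hc
      rw [← Real.rpow_mul (Real.sqrt_nonneg _), mul_comm, Real.rpow_mul (Real.sqrt_nonneg _)]
      congr 1
      rw [Real.rpow_two, Real.sq_sqrt hc]
    have e2 : ∑ k, (√(a k) ^ (q / 2)) ^ (2 : ℝ) = ∑ k, a k ^ (q / 2) :=
      Finset.sum_congr rfl fun k _ => e1 _ (ha0 k)
    have e3 : ∑ k, (√(b k) ^ (q / 2)) ^ (2 : ℝ) = ∑ k, b k ^ (q / 2) :=
      Finset.sum_congr rfl fun k _ => e1 _ (hb0 k)
    rw [e2, e3] at h4
    refine le_trans (le_of_eq ?_) h4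
    exact Finset.sum_congr rfl fun k _ =>
      Real.mul_rpow (Real.sqrt_nonneg _) (Real.sqrt_nonneg _)
  have hA := f7b_pw q hq A
  have hB := f7b_pw q hq B
  have hsa : 0 ≤ ∑ k, a k ^ (q / 2) := Finset.sum_nonneg fun k _ => Real.rpow_nonneg (ha0 k) _
  have hsb : 0 ≤ ∑ k, b k ^ (q / 2) := Finset.sum_nonneg fun k _ => Real.rpow_nonneg (hb0 k) _
  have h5 : ∑ k, (√(a k) * √(b k)) ^ (q / 2) ≤
      pw q A ^ (1 / 2 : ℝ) * pw q B ^ (1 / 2 : ℝ) := by
    refine le_trans h3 ?_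
    exact mul_le_mul (Real.rpow_le_rpow hsa hA (by norm_num))
      (Real.rpow_le_rpow hsb hB (by norm_num)) (Real.rpow_nonneg hsb _)
      (Real.rpow_nonneg (pw_nonneg _ _) _)
  have h6 : (∑ k, (√(a k) * √(b k)) ^ (q / 2)) ^ (1 / (q / 2)) ≤
      pw q A ^ (1 / q) * pw q B ^ (1 / q) := by
    have hnn : 0 ≤ ∑ k, (√(a k) * √(b k)) ^ (q / 2) :=
      Finset.sum_nonneg fun k _ => Real.rpow_nonneg
        (mul_nonneg (Real.sqrt_nonneg _) (Real.sqrt_nonneg _)) _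
    refine le_trans (Real.rpow_le_rpow hnn h5 (by positivity)) (le_of_eq ?_)
    rw [Real.mul_rpow (Real.rpow_nonneg (pw_nonneg _ _) _) (Real.rpow_nonneg (pw_nonneg _ _) _),
      ← Real.rpow_mul (pw_nonneg _ _), ← Real.rpow_mul (pw_nonneg _ _)]
    have e4 : (1 / 2 : ℝ) * (1 / (q / 2)) = 1 / q := by field_simp
    rw [e4]
  refine le_trans h1 (le_trans h2 ?_)
  exact mul_le_mul_of_nonneg_left h6 (Real.rpow_nonneg
    (Finset.sum_nonneg fun k _ => Real.rpow_nonneg (hζ k) _) _)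

end Pool.Agent.LibSchF
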