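import Pool.Agent.LibSchF.F7a
import Pool.Agent.LibSch.Two

open Matrix
open scoped ComplexOrder

namespace Pool.Agent.LibSchF

open Pool.Agent.LibSch Pool.Agent.LibSchTri

/-- the Gram matrix of a real matrix with two rows -/
theorem f7c_gram {K : ℕ} (x y : Fin K → ℝ) :
    (Matrix.of fun (i : Fin 2) (k : Fin K) => ((![x k, y k] i : ℝ) : ℂ)) *
        (Matrix.of fun (i : Fin 2) (k : Fin K) => ((![x k, y k] i : ℝ) : ℂ))ᴴ =
      !![((∑ k, x k ^ 2 : ℝ) : ℂ), ((∑ k, x k * y k : ℝ) : ℂ);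
        ((∑ k, x k * y k : ℝ) : ℂ), ((∑ k, y k ^ 2 : ℝ) : ℂ)] := by
  ext i j
  rw [Matrix.mul_apply]
  fin_cases i <;> fin_cases j <;> simp [sq, mul_comm]

/-- **F7c** (the scalar trace Hölder inequality), from F7a with the `2 × N` matrix `A` with rows
`a`, `b` (`pw_two`: `pw q A = FF (q/2) (∑ a²) (∑ b²) (∑ a b)`) and a real `2 × 2` (or `2 × 2`
triangular) matrix `M` with `M Mᴴ = [x, z; z, y]`, e.g. rows `(√x, 0)`, `(z/√x, √(y - z²/x))`
for `x > 0` (`pw_two` again: `pw (2 s) M = FF s x y z`); `x = 0` forces `z = 0`. -/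
theorem holder_scalar {N : ℕ} (q s : ℝ) (hq : 2 < q) (hs : s = q / (q - 2)) (x y z : ℝ)
    (hx : 0 ≤ x) (hy : 0 ≤ y) (hz : 0 ≤ z) (a b : Fin N → ℝ)
    (h : z ^ 2 ≤ x * y) :
    ∑ k, (x * a k ^ 2 + y * b k ^ 2 + 2 * z * (a k * b k)) ≤
      FF s x y z ^ (1 / s) * FF (q / 2) (∑ k, a k ^ 2) (∑ k, b k ^ 2) (∑ k, a k * b k) ^ (2 / q) := by
  have hs0 : 0 < s := by rw [hs]; exact div_pos (by linarith) (by linarith)
  obtain ⟨c, hc1, hc2⟩ : ∃ c : ℝ, √x * c = z ∧ c ^ 2 ≤ y := by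
    rcases hx.eq_or_lt with hx0 | hx0
    · refine ⟨0, ?_, by simpa using hy⟩
      subst hx0
      have : z ^ 2 ≤ 0 := by simpa using h
      have hz0 : z = 0 := by nlinarith
      simp [hz0]
    · have hr : √x ≠ 0 := (Real.sqrt_pos.2 hx0).ne'
      refine ⟨z / √x, by field_simp, ?_⟩
      rw [div_pow, Real.sq_sqrt hx, div_le_iff₀ hx0]
      linarith [mul_comm x y]
  let u : Fin 2 → ℝ := ![√x, 0]
  let v : Fin 2 → ℝ := ![c, √(y - c ^ 2)]
  have huu : ∑ k, u k ^ 2 = x := by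
    simp [u, Real.sq_sqrt hx]
  have hvv : ∑ k, v k ^ 2 = y := by
    simp only [v, Fin.sum_univ_two, Matrix.cons_val_zero, Matrix.cons_val_one]
    rw [Real.sq_sqrt (by linarith)]
    ring
  have huv : ∑ k, u k * v k = z := by
    simp [u, v, hc1]
  have key := holder_diag q s hq hs
    (Matrix.of fun (i : Fin 2) (k : Fin 2) => ((![u k, v k] i : ℝ) : ℂ))
    (Matrix.of fun (i : Fin 2) (k : Fin N) => ((![a k, b k] i : ℝ) : ℂ))
  rw [pw_two (2 * s) (by linarith), pw_two q (by linarith), f7c_gram, f7c_gram, huu, hvv, huv,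
    mul_div_cancel_left₀ s two_ne_zero] at key
  refine le_trans (le_of_eq ?_) key
  have h1 : ∑ k, (x * a k ^ 2 + y * b k ^ 2 + 2 * z * (a k * b k)) =
      x * (∑ k, a k ^ 2) + y * (∑ k, b k ^ 2) + 2 * z * (∑ k, a k * b k) := by
    rw [Finset.sum_add_distrib, Finset.sum_add_distrib, Finset.mul_sum, Finset.mul_sum,
      Finset.mul_sum]
  rw [h1, Matrix.trace_fin_two]
  simp only [Matrix.mul_apply, Fin.sum_univ_two, Matrix.of_apply, Matrix.cons_val',
    Matrix.cons_val_zero, Matrix.cons_val_one, Matrix.cons_val_fin_one]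
  rw [← Complex.ofReal_mul, ← Complex.ofReal_mul, ← Complex.ofReal_mul, ← Complex.ofReal_add,
    ← Complex.ofReal_add, ← Complex.ofReal_add, Complex.ofReal_re]
  ring

end Pool.Agent.LibSchF
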