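import Pool.Agent.LibSchTri.S14
import Pool.Agent.LibSch.PwBasic

open Matrix
open scoped ComplexOrder

namespace Pool.Agent.LibSchF

open Pool.Agent.LibSch Pool.Agent.LibSchTri

theorem f8a_rpow (q e : ℝ) (hq : 2 < q) (he : 0 ≤ e) : e ^ ((q - 2) / 2) * e = e ^ (q / 2) := by
  rcases eq_or_lt_of_le he with h0 | h0
  · rw [← h0, mul_zero, Real.zero_rpow (by linarith)]
  · have h := Real.rpow_add h0 ((q - 2) / 2) 1
    rw [Real.rpow_one] at h
    rw [← h]
    congr 1
    ring

/-- **F8a.**  `M = U diag(e ^ ((q-2)/4))` where `S Sᴴ = U diag(e) Uᴴ`.  `Mᴴ M =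
diag (e ^ ((q-2)/2))` (`PwBasic_pw`, `PwBasic_S_diagonal`), `s (q-2)/2 = q/2`; compare the proof of
`pw_row_le` in S15. -/
theorem exists_P {κ l : Type} [Fintype κ] [DecidableEq κ] [Fintype l] [DecidableEq l]
    (q s : ℝ) (hq : 2 < q) (hs : s = q / (q - 2)) (S : Matrix κ l ℂ) :
    ∃ M : Matrix κ κ ℂ, pw (2 * s) M = pw q S ∧
      (trace ((M * Mᴴ) * (S * Sᴴ))).re = pw q S := by
  have hX : (S * Sᴴ).PosSemidef := posSemidef_self_mul_conjTranspose S
  set e := hX.1.eigenvalues with he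
  have he0 : ∀ i, 0 ≤ e i := fun i => hX.eigenvalues_nonneg i
  have hpw : pw q S = ∑ i, e i ^ (q / 2) := by
    rw [← pw_conjTranspose q (by linarith), PwBasic_pw, conjTranspose_conjTranspose]
    unfold PwBasic_S
    rw [hX.1.roots_charpoly_eq_eigenvalues, Multiset.map_map]
    rfl
  set U : Matrix κ κ ℂ := (hX.1.eigenvectorUnitary : Matrix κ κ ℂ) with hU
  have hUU : star U * U = 1 := by
    have := hX.1.eigenvectorUnitary.2
    rw [mem_unitaryGroup_iff'] at this
    exact this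
  have hspec : S * Sᴴ = U * diagonal (fun i => ((e i : ℝ) : ℂ)) * star U := by
    have h := hX.1.spectral_theorem
    rw [Unitary.conjStarAlgAut_apply] at h
    exact h
  have hdd : (diagonal (fun i => ((e i ^ ((q - 2) / 4) : ℝ) : ℂ)) : Matrix κ κ ℂ) *
      (diagonal (fun i => ((e i ^ ((q - 2) / 4) : ℝ) : ℂ)) : Matrix κ κ ℂ) =
      diagonal (fun i => ((e i ^ ((q - 2) / 2) : ℝ) : ℂ)) := by
    rw [diagonal_mul_diagonal]
    congr 1
    funext i
    rw [← Complex.ofReal_mul, ← Real.rpow_add_of_nonneg (he0 i) (by linarith) (by linarith)]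
    congr 2
    ring
  have hdc : (diagonal (fun i => ((e i ^ ((q - 2) / 4) : ℝ) : ℂ)) : Matrix κ κ ℂ)ᴴ =
      diagonal (fun i => ((e i ^ ((q - 2) / 4) : ℝ) : ℂ)) := by
    rw [diagonal_conjTranspose]
    congr 1
    funext i
    exact Complex.conj_ofReal _
  have hUc : Uᴴ = star U := rfl
  refine ⟨U * diagonal (fun i => ((e i ^ ((q - 2) / 4) : ℝ) : ℂ)), ?_, ?_⟩
  · rw [PwBasic_pw, conjTranspose_mul, hdc, hUc]
    have h1 : diagonal (fun i => ((e i ^ ((q - 2) / 4) : ℝ) : ℂ)) * star U *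
        (U * diagonal (fun i => ((e i ^ ((q - 2) / 4) : ℝ) : ℂ))) =
        diagonal (fun i => ((e i ^ ((q - 2) / 2) : ℝ) : ℂ)) := by
      rw [← hdd]
      calc diagonal (fun i => ((e i ^ ((q - 2) / 4) : ℝ) : ℂ)) * star U *
            (U * diagonal (fun i => ((e i ^ ((q - 2) / 4) : ℝ) : ℂ)))
          = diagonal (fun i => ((e i ^ ((q - 2) / 4) : ℝ) : ℂ)) * (star U * U) *
            diagonal (fun i => ((e i ^ ((q - 2) / 4) : ℝ) : ℂ)) := by
            simp only [Matrix.mul_assoc]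
        _ = _ := by rw [hUU, Matrix.mul_one]
    rw [h1, PwBasic_S_diagonal, hpw]
    refine Finset.sum_congr rfl fun i _ => ?_
    rw [Complex.ofReal_re, ← Real.rpow_mul (he0 i)]
    congr 1
    rw [hs]
    have : q - 2 ≠ 0 := by linarith
    field_simp
  · rw [conjTranspose_mul, hdc, hUc]
    have h1 : U * diagonal (fun i => ((e i ^ ((q - 2) / 4) : ℝ) : ℂ)) *
        (diagonal (fun i => ((e i ^ ((q - 2) / 4) : ℝ) : ℂ)) * star U) =
        U * diagonal (fun i => ((e i ^ ((q - 2) / 2) : ℝ) : ℂ)) * star U := by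
      rw [← hdd]
      simp only [Matrix.mul_assoc]
    have h2 : U * diagonal (fun i => ((e i ^ ((q - 2) / 2) : ℝ) : ℂ)) * star U *
        (U * diagonal (fun i => ((e i : ℝ) : ℂ)) * star U) =
        U * (diagonal (fun i => ((e i ^ (q / 2) : ℝ) : ℂ)) * star U) := by
      calc U * diagonal (fun i => ((e i ^ ((q - 2) / 2) : ℝ) : ℂ)) * star U *
            (U * diagonal (fun i => ((e i : ℝ) : ℂ)) * star U)
          = U * (diagonal (fun i => ((e i ^ ((q - 2) / 2) : ℝ) : ℂ)) * (star U * U) *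
            diagonal (fun i => ((e i : ℝ) : ℂ))) * star U := by
            simp only [Matrix.mul_assoc]
        _ = _ := by
            rw [hUU, Matrix.mul_one, diagonal_mul_diagonal, Matrix.mul_assoc]
            congr 3
            funext i
            rw [← Complex.ofReal_mul, f8a_rpow q (e i) hq (he0 i)]
    rw [h1, hspec, h2, Matrix.trace_mul_comm, Matrix.mul_assoc, hUU, Matrix.mul_one,
      Matrix.trace_diagonal, hpw, ← Complex.ofReal_sum, Complex.ofReal_re]

end Pool.Agent.LibSchF
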