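import Pool.Agent.LibSch.PwBasic
import Pool.Agent.LibSchTri.Defs

open Matrix
open scoped ComplexOrder

namespace Pool.Agent.LibSchF

open Pool.Agent.LibSch Pool.Agent.LibSchTri

theorem f8b_rows {d l : Type} [Fintype d] [Fintype l]
    (M₁ M₂ : Matrix d l ℂ) :
    fromRows M₁ M₂ * (fromRows M₁ M₂)ᴴ =
      fromBlocks (M₁ * M₁ᴴ) (M₁ * M₂ᴴ) (M₂ * M₁ᴴ) (M₂ * M₂ᴴ) := by
  rw [conjTranspose_fromRows_eq_fromCols_conjTranspose, fromRows_mul_fromCols]

theorem f8b_blk {N : ℕ} {d : Type} {n : Fin N → Type} [Fintype d]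
    [∀ k, Fintype (n k)] (A B : ∀ k, Matrix d (n k) ℂ) :
    blk A B * (blk A B)ᴴ =
      fromBlocks (∑ k, A k * (A k)ᴴ) (∑ k, A k * (B k)ᴴ) (∑ k, B k * (A k)ᴴ)
        (∑ k, B k * (B k)ᴴ) := by
  ext i j
  rcases i with i | i <;> rcases j with j | j <;>
    simp [Matrix.mul_apply, fromBlocks, blk, Fintype.sum_sigma, Matrix.sum_apply]

theorem f8b_conj {d n l : Type} [Fintype d] [Fintype n] [Fintype l]
    (M₁ M₂ : Matrix d l ℂ) (A B : Matrix d n ℂ) :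
    (trace ((M₂ * M₁ᴴ) * (A * Bᴴ))).re = (trace ((M₁ * M₂ᴴ) * (B * Aᴴ))).re := by
  have h1 : trace ((M₂ * M₁ᴴ) * (A * Bᴴ)) = star (trace ((M₁ * M₂ᴴ) * (B * Aᴴ))) := by
    rw [← trace_conjTranspose, conjTranspose_mul, conjTranspose_mul, conjTranspose_mul,
      conjTranspose_conjTranspose, conjTranspose_conjTranspose, trace_mul_comm]
  rw [h1]
  exact Complex.conj_re _

/-- **F8b.**  trace of the product in blocks -/
theorem trace_blocks {N : ℕ} {d l : Type} {n : Fin N → Type} [Fintype d] [DecidableEq d]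
    [Fintype l] [DecidableEq l] [∀ k, Fintype (n k)] [∀ k, DecidableEq (n k)]
    (M₁ M₂ : Matrix d l ℂ) (A B : ∀ k, Matrix d (n k) ℂ) :
    (trace ((fromRows M₁ M₂ * (fromRows M₁ M₂)ᴴ) * (blk A B * (blk A B)ᴴ))).re =
      ∑ k, ((trace ((M₁ * M₁ᴴ) * (A k * (A k)ᴴ))).re + (trace ((M₂ * M₂ᴴ) * (B k * (B k)ᴴ))).re +
        2 * (trace ((M₁ * M₂ᴴ) * (B k * (A k)ᴴ))).re) := by
  have htr : ∀ X Y Z W : Matrix d d ℂ, trace (fromBlocks X Y Z W) = trace X + trace W := by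
    intro X Y Z W
    simp [trace, Fintype.sum_sum_type]
  rw [f8b_rows, f8b_blk, fromBlocks_multiply, htr]
  simp only [Matrix.mul_sum, trace_add, trace_sum, Complex.add_re, Complex.re_sum, f8b_conj M₁ M₂]
  rw [← Finset.sum_add_distrib, ← Finset.sum_add_distrib, ← Finset.sum_add_distrib]
  refine Finset.sum_congr rfl fun k _ => ?_
  ring

end Pool.Agent.LibSchF
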