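import Pool.Agent.LibSchTri.S13
import Pool.Agent.LibSch.DirSum

open Matrix
open scoped ComplexOrder

namespace Pool.Agent.LibSchF

open Pool.Agent.LibSch Pool.Agent.LibSchTri

theorem f8c_pw_left {m n : Type} [Fintype m] [DecidableEq m] [Fintype n] [DecidableEq n] (p : ℝ)
    (M : Matrix m n ℂ) (U : unitaryGroup m ℂ) : pw p ((U : Matrix m m ℂ) * M) = pw p M := by
  have h := pw_unitary p M U 1
  rw [← h]
  congr 1
  change _ = (U : Matrix m m ℂ) * M * (1 : Matrix n n ℂ)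
  rw [Matrix.mul_one]

theorem f8c_blk {N : ℕ} {m₁ m₂ : Type} {n : Fin N → Type} [Fintype m₁] [Fintype m₂]
    (A : ∀ k, Matrix m₁ (n k) ℂ) (B : ∀ k, Matrix m₂ (n k) ℂ)
    (U₁ : Matrix m₁ m₁ ℂ) (U₂ : Matrix m₂ m₂ ℂ) :
    blk (fun k => U₁ * A k) (fun k => U₂ * B k) = fromBlocks U₁ 0 0 U₂ * blk A B := by
  ext i ⟨k, c⟩
  rcases i with i | i
  · simp only [blk, Matrix.of_apply, Sum.elim_inl, Matrix.mul_apply, Fintype.sum_sum_type,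
      fromBlocks_apply₁₁, fromBlocks_apply₁₂, Matrix.zero_apply, zero_mul, Sum.elim_inr,
      Finset.sum_const_zero, add_zero]
  · simp only [blk, Matrix.of_apply, Sum.elim_inl, Matrix.mul_apply, Fintype.sum_sum_type,
      fromBlocks_apply₂₁, fromBlocks_apply₂₂, Matrix.zero_apply, zero_mul, Sum.elim_inr,
      Finset.sum_const_zero, zero_add]

theorem f8c_trace {m n l : Type} [Fintype m] [DecidableEq m] [Fintype n] [Fintype l]
    (W : unitaryGroup m ℂ) (M : Matrix m l ℂ) (B : Matrix m n ℂ) :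
    trace ((((W : Matrix m m ℂ) * M) * ((W : Matrix m m ℂ) * M)ᴴ) *
        (((W : Matrix m m ℂ) * B) * ((W : Matrix m m ℂ) * B)ᴴ)) =
      trace ((M * Mᴴ) * (B * Bᴴ)) := by
  have hW : (W : Matrix m m ℂ)ᴴ * (W : Matrix m m ℂ) = 1 := mem_unitaryGroup_iff'.1 W.2
  have h : (((W : Matrix m m ℂ) * M) * ((W : Matrix m m ℂ) * M)ᴴ) *
        (((W : Matrix m m ℂ) * B) * ((W : Matrix m m ℂ) * B)ᴴ) =
      (W : Matrix m m ℂ) * ((M * Mᴴ) * (((W : Matrix m m ℂ)ᴴ * (W : Matrix m m ℂ)) *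
        ((B * Bᴴ) * (W : Matrix m m ℂ)ᴴ))) := by
    rw [conjTranspose_mul, conjTranspose_mul]
    simp only [Matrix.mul_assoc]
  rw [h, hW, Matrix.one_mul, Matrix.trace_mul_comm]
  have h2 : (M * Mᴴ) * ((B * Bᴴ) * (W : Matrix m m ℂ)ᴴ) * (W : Matrix m m ℂ) =
      (M * Mᴴ) * ((B * Bᴴ) * ((W : Matrix m m ℂ)ᴴ * (W : Matrix m m ℂ))) := by
    simp only [Matrix.mul_assoc]
  rw [h2, hW, Matrix.mul_one]

/-- **F8c.**  gauge: with `M = fromRows M₁⁰ M₂⁰` and `svd_sq (M₁⁰ M₂⁰ᴴ)`: `U M₁⁰ M₂⁰ᴴ V = diag ζ`,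
take `M₁ = U M₁⁰`, `M₂ = Vᴴ M₂⁰`, `A' k = U A k`, `B' k = Vᴴ B k` (`pw_unitary`,
`fromBlocks U 0 0 Vᴴ` unitary). -/
theorem gauge {N : ℕ} {d l : Type} {n : Fin N → Type} [Fintype d] [DecidableEq d]
    [Fintype l] [DecidableEq l] [∀ k, Fintype (n k)] [∀ k, DecidableEq (n k)] (q s : ℝ)
    (M : Matrix (d ⊕ d) l ℂ) (A B : ∀ k, Matrix d (n k) ℂ) :
    ∃ (M₁ M₂ : Matrix d l ℂ) (A' B' : ∀ k, Matrix d (n k) ℂ) (ζ : d → ℝ), (∀ k, 0 ≤ ζ k) ∧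
      M₁ * M₂ᴴ = diagonal (fun k => (ζ k : ℂ)) ∧ (∀ k, pw q (A' k) = pw q (A k)) ∧
      (∀ k, pw q (B' k) = pw q (B k)) ∧ pw (2 * s) (fromRows M₁ M₂) = pw (2 * s) M ∧
      (trace ((fromRows M₁ M₂ * (fromRows M₁ M₂)ᴴ) * (blk A' B' * (blk A' B')ᴴ))).re =
        (trace ((M * Mᴴ) * (blk A B * (blk A B)ᴴ))).re := by
  obtain ⟨U, V, ζ, hζ, h⟩ := svd_sq (M.toRows₁ * (M.toRows₂)ᴴ)
  let W : unitaryGroup (d ⊕ d) ℂ := ⟨_, fromBlocks_mem_unitary U (star V)⟩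
  have hW : (W : Matrix (d ⊕ d) (d ⊕ d) ℂ) =
      fromBlocks (U : Matrix d d ℂ) 0 0 ((star V : unitaryGroup d ℂ) : Matrix d d ℂ) := rfl
  have hM : fromRows ((U : Matrix d d ℂ) * M.toRows₁)
      (((star V : unitaryGroup d ℂ) : Matrix d d ℂ) * M.toRows₂) =
      (W : Matrix (d ⊕ d) (d ⊕ d) ℂ) * M := by
    conv_rhs => rw [← fromRows_toRows M]
    rw [hW, fromBlocks_mul_fromRows, Matrix.zero_mul, Matrix.zero_mul, add_zero, zero_add]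
  have hB : blk (fun k => (U : Matrix d d ℂ) * A k)
      (fun k => ((star V : unitaryGroup d ℂ) : Matrix d d ℂ) * B k) =
      (W : Matrix (d ⊕ d) (d ⊕ d) ℂ) * blk A B := by
    rw [hW, f8c_blk]
  refine ⟨(U : Matrix d d ℂ) * M.toRows₁,
    ((star V : unitaryGroup d ℂ) : Matrix d d ℂ) * M.toRows₂,
    fun k => (U : Matrix d d ℂ) * A k,
    fun k => ((star V : unitaryGroup d ℂ) : Matrix d d ℂ) * B k, ζ, hζ, ?_,
    fun k => f8c_pw_left q (A k) U, fun k => f8c_pw_left q (B k) (star V), ?_, ?_⟩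
  · rw [← h, conjTranspose_mul]
    have h1 : ((star V : unitaryGroup d ℂ) : Matrix d d ℂ)ᴴ = (V : Matrix d d ℂ) := by
      change ((V : Matrix d d ℂ)ᴴ)ᴴ = _
      rw [conjTranspose_conjTranspose]
    rw [h1]
    simp only [Matrix.mul_assoc]
  · rw [hM, f8c_pw_left]
  · rw [hM, hB, f8c_trace]

end Pool.Agent.LibSchF
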