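import Pool.Agent.LibSchF.F6
import Pool.Agent.LibSchF.F7a
import Pool.Agent.LibSchF.F7b
import Pool.Agent.LibSchF.F7c
import Pool.Agent.LibSchF.F8a
import Pool.Agent.LibSchF.F8b
import Pool.Agent.LibSchF.F8c

open Matrix
open scoped ComplexOrder

namespace Pool.Agent.LibSchF

open Pool.Agent.LibSch Pool.Agent.LibSchTri

theorem f8_FF_nonneg (s x y w : ℝ) (hx : 0 ≤ x) (hy : 0 ≤ y) (h : w ^ 2 ≤ x * y) :
    0 ≤ FF s x y w := by
  unfold FF
  exact add_nonneg (Real.rpow_nonneg (lamP_nonneg x y w hx hy) _)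
    (Real.rpow_nonneg (lamM_nonneg x y w hx hy h) _)

theorem f8_sq_le {d l : Type} [Fintype d] [DecidableEq d] [Fintype l] [DecidableEq l]
    (s : ℝ) (h1 : 1 < s) (M₁ M₂ : Matrix d l ℂ) (ζ : d → ℝ) (hζ : ∀ k, 0 ≤ ζ k)
    (h : M₁ * M₂ᴴ = diagonal fun k => (ζ k : ℂ)) :
    (∑ k, ζ k ^ s) ^ 2 ≤ pw (2 * s) M₁ * pw (2 * s) M₂ := by
  have hX : ∑ k, ((M₁ * M₁ᴴ) k k).re ^ s ≤ pw (2 * s) M₁ := by
    have := diag_pow_le s h1.le M₁ᴴ
    rwa [conjTranspose_conjTranspose, pw_conjTranspose _ (by linarith)] at this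
  have hY : ∑ k, ((M₂ * M₂ᴴ) k k).re ^ s ≤ pw (2 * s) M₂ := by
    have := diag_pow_le s h1.le M₂ᴴ
    rwa [conjTranspose_conjTranspose, pw_conjTranspose _ (by linarith)] at this
  have hx := fun k => (diag_cs M₁ M₂ ζ h k).1
  have hy := fun k => (diag_cs M₁ M₂ ζ h k).2.1
  have hxy := fun k => (diag_cs M₁ M₂ ζ h k).2.2
  set x : d → ℝ := fun k => ((M₁ * M₁ᴴ) k k).re with hxd
  set y : d → ℝ := fun k => ((M₂ * M₂ᴴ) k k).re with hyd
  have hk : ∀ k, ζ k ^ s ≤ x k ^ (s / 2) * y k ^ (s / 2) := by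
    intro k
    rw [← Real.mul_rpow (hx k) (hy k)]
    have e : ζ k ^ s = (ζ k ^ 2) ^ (s / 2) := by
      rw [← Real.rpow_natCast, ← Real.rpow_mul (hζ k)]
      congr 1
      push_cast
      ring
    rw [e]
    exact Real.rpow_le_rpow (by positivity) (hxy k) (by linarith)
  have h0 : 0 ≤ ∑ k, ζ k ^ s := Finset.sum_nonneg fun k _ => Real.rpow_nonneg (hζ k) _
  have h2 : (∑ k, ζ k ^ s) ^ 2 ≤ (∑ k, x k ^ (s / 2) * y k ^ (s / 2)) ^ 2 :=
    pow_le_pow_left₀ h0 (Finset.sum_le_sum fun k _ => hk k) 2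
  have h3 : (∑ k, x k ^ (s / 2) * y k ^ (s / 2)) ^ 2 ≤
      (∑ k, (x k ^ (s / 2)) ^ 2) * ∑ k, (y k ^ (s / 2)) ^ 2 :=
    Finset.sum_mul_sq_le_sq_mul_sq _ _ _
  have e : ∀ t : ℝ, 0 ≤ t → (t ^ (s / 2)) ^ 2 = t ^ s := by
    intro t ht
    rw [← Real.rpow_natCast, ← Real.rpow_mul ht]
    congr 1
    push_cast
    ring
  have h4 : ∑ k, (x k ^ (s / 2)) ^ 2 = ∑ k, x k ^ s :=
    Finset.sum_congr rfl fun k _ => e _ (hx k)
  have h5 : ∑ k, (y k ^ (s / 2)) ^ 2 = ∑ k, y k ^ s :=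
    Finset.sum_congr rfl fun k _ => e _ (hy k)
  rw [h4, h5] at h3
  refine h2.trans (h3.trans ?_)
  exact mul_le_mul hX hY (Finset.sum_nonneg fun k _ => Real.rpow_nonneg (hy k) _)
    (pw_nonneg _ _)

/-- **F8** -/
theorem posN {N : ℕ} {d : Type} {n : Fin N → Type} [Fintype d] [DecidableEq d]
    [∀ k, Fintype (n k)] [∀ k, DecidableEq (n k)] (q : ℝ) (hq : 4 ≤ q)
    (A B : ∀ k, Matrix d (n k) ℂ) (a b : Fin N → ℝ) (ha : ∀ k, 0 ≤ a k) (hb : ∀ k, 0 ≤ b k)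
    (hA : ∀ k, pw q (A k) ≤ a k ^ q) (hB : ∀ k, pw q (B k) ≤ b k ^ q) :
    pw q (blk A B) ≤ FF (q / 2) (∑ k, a k ^ 2) (∑ k, b k ^ 2) (∑ k, a k * b k) := by
  have hq0 : 0 < q := by linarith
  have hq2 : 0 < q - 2 := by linarith
  set s : ℝ := q / (q - 2) with hs
  have hs1 : 1 < s := by rw [hs, lt_div_iff₀ hq2]; linarith
  have hs2 : s ≤ 2 := by rw [hs, div_le_iff₀ hq2]; linarith
  have hs0 : 0 < s := by linarith
  obtain ⟨M, hM1, hM2⟩ := exists_P q s (by linarith) hs (blk A B)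
  obtain ⟨M₁, M₂, A', B', ζ, hζ, hd, hA', hB', hpw, htr⟩ := gauge q s M A B
  rw [hM2, trace_blocks, hd] at htr
  rw [hM1] at hpw
  set T : ℝ := pw q (blk A B) with hT
  have hT0 : 0 ≤ T := pw_nonneg _ _
  set X : ℝ := pw (2 * s) M₁ with hX
  set Y : ℝ := pw (2 * s) M₂ with hY
  set W : ℝ := ∑ k, ζ k ^ s with hW
  have hX0 : 0 ≤ X := pw_nonneg _ _
  have hY0 : 0 ≤ Y := pw_nonneg _ _
  have hW0 : 0 ≤ W := Finset.sum_nonneg fun k _ => Real.rpow_nonneg (hζ k) _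
  have hWXY : W ^ 2 ≤ X * Y := f8_sq_le s hs1 M₁ M₂ ζ hζ hd
  have hking := king s hs1 hs2 M₁ M₂ ζ hζ hd
  rw [hpw, ← hX, ← hY, ← hW] at hking
  set x : ℝ := X ^ (1 / s) with hx
  set y : ℝ := Y ^ (1 / s) with hy
  set z : ℝ := W ^ (1 / s) with hz
  have hx0 : 0 ≤ x := Real.rpow_nonneg hX0 _
  have hy0 : 0 ≤ y := Real.rpow_nonneg hY0 _
  have hz0 : 0 ≤ z := Real.rpow_nonneg hW0 _
  have hzxy : z ^ 2 ≤ x * y := by
    rw [hx, hy, hz, ← Real.mul_rpow hX0 hY0, ← Real.rpow_natCast, ← Real.rpow_mul hW0,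
      mul_comm (1 / s) _, Real.rpow_mul hW0]
    refine Real.rpow_le_rpow (by positivity) ?_ (by positivity)
    rw [Real.rpow_natCast]
    exact hWXY
  have hinv : ∀ t : ℝ, 0 ≤ t → (t ^ (1 / s)) ^ s = t := by
    intro t ht
    rw [← Real.rpow_mul ht, one_div_mul_cancel hs0.ne', Real.rpow_one]
  have hFF := FF_PhiE s x y z hs1.le hx0 hy0 hz0 hzxy
  rw [hx, hy, hz, hinv X hX0, hinv Y hY0, hinv W hW0, ← hx, ← hy, ← hz] at hFF
  rw [hFF] at hking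
  -- Hölder for the blocks
  have hroot : ∀ t c : ℝ, 0 ≤ t → 0 ≤ c → t ≤ c ^ q → t ^ (2 / q) ≤ c ^ 2 := by
    intro t c ht hc h
    calc t ^ (2 / q) ≤ (c ^ q) ^ (2 / q) := Real.rpow_le_rpow ht h (by positivity)
      _ = c ^ 2 := by
        rw [← Real.rpow_mul hc, mul_div_cancel₀ _ hq0.ne', ← Real.rpow_natCast]
        norm_num
  have hroot1 : ∀ t c : ℝ, 0 ≤ t → 0 ≤ c → t ≤ c ^ q → t ^ (1 / q) ≤ c := by
    intro t c ht hc h
    calc t ^ (1 / q) ≤ (c ^ q) ^ (1 / q) := Real.rpow_le_rpow ht h (by positivity)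
      _ = c := by
        rw [← Real.rpow_mul hc, mul_one_div_cancel hq0.ne', Real.rpow_one]
  have hsum : T ≤ ∑ k, (x * a k ^ 2 + y * b k ^ 2 + 2 * z * (a k * b k)) := by
    rw [← htr]
    refine Finset.sum_le_sum fun k _ => ?_
    have h1 := holder_diag q s (by linarith) hs M₁ (A' k)
    have h2 := holder_diag q s (by linarith) hs M₂ (B' k)
    have h3 := holder_off q s (by linarith) hs ζ hζ (A' k) (B' k)
    rw [hA', ← hX, ← hx] at h1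
    rw [hB', ← hY, ← hy] at h2
    rw [hA', hB', ← hW, ← hz] at h3
    have g1 : x * pw q (A k) ^ (2 / q) ≤ x * a k ^ 2 :=
      mul_le_mul_of_nonneg_left (hroot _ _ (pw_nonneg _ _) (ha k) (hA k)) hx0
    have g2 : y * pw q (B k) ^ (2 / q) ≤ y * b k ^ 2 :=
      mul_le_mul_of_nonneg_left (hroot _ _ (pw_nonneg _ _) (hb k) (hB k)) hy0
    have g3 : z * (pw q (A k) ^ (1 / q) * pw q (B k) ^ (1 / q)) ≤ z * (a k * b k) :=
      mul_le_mul_of_nonneg_left (mul_le_mul (hroot1 _ _ (pw_nonneg _ _) (ha k) (hA k))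
        (hroot1 _ _ (pw_nonneg _ _) (hb k) (hB k)) (Real.rpow_nonneg (pw_nonneg _ _) _) (ha k)) hz0
    linarith
  have hsc := holder_scalar q s (by linarith) hs x y z hx0 hy0 hz0 a b hzxy
  set G : ℝ := FF (q / 2) (∑ k, a k ^ 2) (∑ k, b k ^ 2) (∑ k, a k * b k) with hG
  have hG0 : 0 ≤ G := by
    refine f8_FF_nonneg _ _ _ _ (Finset.sum_nonneg fun k _ => sq_nonneg _)
      (Finset.sum_nonneg fun k _ => sq_nonneg _) ?_
    exact Finset.sum_mul_sq_le_sq_mul_sq _ _ _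
  have hmain : T ≤ T ^ (1 / s) * G ^ (2 / q) := by
    refine hsum.trans (hsc.trans ?_)
    refine mul_le_mul_of_nonneg_right ?_ (Real.rpow_nonneg hG0 _)
    exact Real.rpow_le_rpow (f8_FF_nonneg _ _ _ _ hx0 hy0 hzxy) hking (by positivity)
  rcases hT0.eq_or_lt with h0 | h0
  · rw [← h0]; exact hG0
  · have e1 : T = T ^ (1 / s) * T ^ (2 / q) := by
      rw [← Real.rpow_add h0]
      have : 1 / s + 2 / q = 1 := by
        rw [hs]
        field_simp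
        ring
      rw [this, Real.rpow_one]
    have h1 : T ^ (1 / s) * T ^ (2 / q) ≤ T ^ (1 / s) * G ^ (2 / q) := by
      rw [← e1]; exact hmain
    have h2 : T ^ (2 / q) ≤ G ^ (2 / q) := le_of_mul_le_mul_left h1 (Real.rpow_pos_of_pos h0 _)
    exact (Real.rpow_le_rpow_iff hT0 hG0 (by positivity)).1 h2

end Pool.Agent.LibSchF
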